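import Pool.Agent.Lib_helper48.TP.H3
import Pool.Agent.Lib_helper55.TP_G1
import Pool.Agent.Lib_helper66.KP.G23
import Pool.Agent.Lib_helper74.KP.G4

open Module Metric Set Filter Topology CategoryTheory
open scoped ContDiff Quaternion Manifold Matrix

noncomputable section
namespace Pool.Agent.TP

section Quad
variable {T : Type} [NormedAddCommGroup T] [NormedSpace ℝ T] [FiniteDimensional ℝ T]

theorem exists_lower_bound (q : T →L[ℝ] T →L[ℝ] ℝ) (h : ∀ u, u ≠ 0 → 0 < q u u) :
    ∃ k > 0, ∀ u, 2 * k * ‖u‖ ^ 2 ≤ q u u := by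
  by_cases hT : ∃ u : T, u ≠ 0
  · have hne : (sphere (0 : T) 1).Nonempty := by
      obtain ⟨u, hu⟩ := hT
      refine ⟨‖u‖⁻¹ • u, ?_⟩
      rw [mem_sphere_zero_iff_norm, norm_smul, norm_inv, norm_norm,
        inv_mul_cancel₀ (norm_ne_zero_iff.2 hu)]
    have hc : ContinuousOn (fun u => q u u) (sphere (0 : T) 1) := by fun_prop
    obtain ⟨u0, hu0, hmin⟩ := (isCompact_sphere (0 : T) 1).exists_isMinOn hne hc
    have hu0' : u0 ≠ 0 := by
      intro h0
      rw [h0, mem_sphere_zero_iff_norm, norm_zero] at hu0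
      exact zero_ne_one hu0
    refine ⟨q u0 u0 / 2, half_pos (h u0 hu0'), fun u => ?_⟩
    by_cases hu : u = 0
    · simp [hu]
    · have h1 : ‖u‖⁻¹ • u ∈ sphere (0 : T) 1 := by
        rw [mem_sphere_zero_iff_norm, norm_smul, norm_inv, norm_norm,
          inv_mul_cancel₀ (norm_ne_zero_iff.2 hu)]
      have h2 : q u0 u0 ≤ q (‖u‖⁻¹ • u) (‖u‖⁻¹ • u) := hmin h1
      have h3 : q (‖u‖⁻¹ • u) (‖u‖⁻¹ • u) = (‖u‖⁻¹) ^ 2 * q u u := by
        simp only [map_smul, smul_apply, smul_eq_mul]; ring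
      rw [h3] at h2
      have h4 : 0 < ‖u‖ := norm_pos_iff.2 hu
      calc 2 * (q u0 u0 / 2) * ‖u‖ ^ 2 = q u0 u0 * ‖u‖ ^ 2 := by ring
        _ ≤ ((‖u‖⁻¹) ^ 2 * q u u) * ‖u‖ ^ 2 := mul_le_mul_of_nonneg_right h2 (sq_nonneg _)
        _ = q u u := by field_simp
  · push Not at hT
    exact ⟨1, one_pos, fun u => by rw [hT u]; simp⟩

/-- local strict positivity on a subspace on which the Hessian is positive -/
theorem pos_near (H : T → ℝ) (hH : ContDiff ℝ 2 H) (h0 : H 0 = 0) (h1 : fderiv ℝ H 0 = 0)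
    (W : Submodule ℝ T) (hW : ∀ u ∈ W, u ≠ 0 → 0 < D2 H 0 u u) :
    ∃ r > 0, ∀ z ∈ W, z ≠ 0 → ‖z‖ ≤ r → 0 < H z := by
  set j : W →L[ℝ] T := W.subtypeL with hj
  have hd1 : ∀ w : W, fderiv ℝ (fun w : W => H (j w)) w = (fderiv ℝ H (j w)).comp j := by
    intro w
    exact ((hH.differentiable (by simp) (j w)).hasFDerivAt.comp w j.hasFDerivAt).fderiv
  have hd2 : ∀ u v : W, D2 (fun w : W => H (j w)) 0 u v = D2 H 0 (j u) (j v) := by
    intro u v
    have h2 : HasFDerivAt (fderiv ℝ H) (D2 H 0) (j 0) := by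
      have h3 : ContDiff ℝ 1 (fderiv ℝ H) := hH.fderiv_right (by norm_num)
      rw [map_zero]
      exact (h3.differentiable (by simp) 0).hasFDerivAt
    have h3 : HasFDerivAt (fun w : W => fderiv ℝ H (j w)) ((D2 H 0).comp j) 0 :=
      h2.comp 0 j.hasFDerivAt
    have h4 : HasFDerivAt (fun w : W => (fderiv ℝ H (j w)).comp j)
        (((ContinuousLinearMap.compL ℝ W T ℝ).flip j).comp ((D2 H 0).comp j)) 0 :=
      ((ContinuousLinearMap.compL ℝ W T ℝ).flip j).hasFDerivAt.comp 0 h3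
    rw [D2, funext hd1, h4.fderiv]
    rfl
  obtain ⟨k, hk, hkb⟩ := exists_lower_bound (D2 (fun w : W => H (j w)) 0) (fun u hu => by
    rw [hd2]
    exact hW u u.2 (fun h => hu (Subtype.ext h)))
  have h2 := lower_of_second (fun w : W => H (j w)) (hH.comp j.contDiff) 0 k hk
    (by simpa using h0) (by rw [hd1, map_zero, h1, ContinuousLinearMap.zero_comp]) hkb
  obtain ⟨δ, hδ, hball⟩ := Metric.eventually_nhds_iff_ball.1 h2
  refine ⟨δ / 2, half_pos hδ, fun z hz hz0 hzn => ?_⟩
  have h3 := hball ⟨z, hz⟩ (by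
    rw [mem_ball_zero_iff]
    show ‖z‖ < δ
    linarith)
  have h4 : k / 2 * ‖z‖ ^ 2 ≤ H z := by
    rw [sub_zero] at h3
    exact h3
  have h5 : 0 < ‖z‖ := norm_pos_iff.2 hz0
  exact lt_of_lt_of_le (by positivity) h4

end Quad

section Transfer
variable {d : ℕ} {M : Type} [TopologicalSpace M] [CompactSpace M] [T2Space M]
    [ChartedSpace (EuclideanSpace ℝ (Fin (2 * d))) M] [IsManifold (𝓡 (2 * d)) ∞ M]

/-- projections and inclusions for complementary subspaces -/
theorem exists_proj {n : ℕ} (W₁ W₂ : Submodule ℝ (EuclideanSpace ℝ (Fin n)))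
    (hdim : finrank ℝ W₁ + finrank ℝ W₂ = n) (hdis : W₁ ⊓ W₂ = ⊥) :
    ∃ (π : EuclideanSpace ℝ (Fin n) →L[ℝ] EuclideanSpace ℝ (Fin (finrank ℝ W₁)))
      (ψ : EuclideanSpace ℝ (Fin (finrank ℝ W₁)) →L[ℝ] EuclideanSpace ℝ (Fin n)),
      (∀ x, π (ψ x) = x) ∧ (∀ x, ψ x ∈ W₁) ∧ (∀ z, π z = 0 → z ∈ W₂) := by
  have hcod : Codisjoint W₁ W₂ := by
    rw [codisjoint_iff]
    apply Submodule.eq_top_of_finrank_eq
    have h1 := Submodule.finrank_sup_add_finrank_inf_eq W₁ W₂
    rw [hdis, finrank_bot, add_zero, hdim] at h1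
    rw [h1, finrank_euclideanSpace_fin]
  have hc : IsCompl W₁ W₂ := ⟨disjoint_iff.2 hdis, hcod⟩
  have e : W₁ ≃L[ℝ] EuclideanSpace ℝ (Fin (finrank ℝ W₁)) :=
    ContinuousLinearEquiv.ofFinrankEq (by rw [finrank_euclideanSpace_fin])
  set P : EuclideanSpace ℝ (Fin n) →ₗ[ℝ] W₁ := W₁.projectionOnto W₂ hc with hP
  refine ⟨(e : W₁ →L[ℝ] _).comp (LinearMap.toContinuousLinearMap P),
    (W₁.subtypeL).comp (e.symm : _ →L[ℝ] W₁), ?_, ?_, ?_⟩
  · intro x
    show e (P ((e.symm x : W₁) : EuclideanSpace ℝ (Fin n))) = x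
    rw [hP, Submodule.projectionOnto_apply_left, e.apply_symm_apply]
  · intro x
    exact (e.symm x).2
  · intro z hz
    have h1 : P z = 0 := e.injective (by rw [map_zero]; exact hz)
    exact (Submodule.projectionOnto_apply_eq_zero_iff hc).1 h1

/-- passage from a smooth tight substantial embedding to a tight set -/
theorem tightSet_of_tight (f : M → EuclideanSpace ℝ (Fin (3 * d + 2)))
    (hM : LikeProjPlane d M) (hf : IsSmoothEmb (n := 2 * d) f) (hs : IsSubstantial f)
    (ht : IsTight f) : TightSet d (Set.range f) := by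
  have hpc : PathConnectedSpace M := pathConnected_of_like M hM
  have hc : Continuous f := hf.1.continuous
  have hinj : Function.Injective f := hf.2.1
  refine ⟨isCompact_range hc, isConnected_range hc, exists_graphChart M f hf, ?_, ?_, ?_⟩
  · intro ξ c h
    by_contra hξ
    obtain ⟨x, hx⟩ := hs ξ c hξ
    exact hx (h _ (mem_range_self x))
  · rintro _ ⟨m, rfl⟩ ξ k hk hev _ ⟨y, rfl⟩
    have h1 : Tendsto f (𝓝 m) (𝓝[range f] (f m)) :=
      tendsto_nhdsWithin_iff.2 ⟨hc.tendsto m, Eventually.of_forall fun z => mem_range_self z⟩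
    obtain ⟨U, hU1, hU2, hU3⟩ := _root_.mem_nhds_iff.1 (h1.eventually hev)
    have h2 := tight_T0 f hc ht ξ m U hU2 hU3 (fun x hx hxm => by
      have h3 : k * ‖f x - f m‖ ^ 2 ≤ ξ (f x - f m) := hU1 hx
      have h4 : 0 < ‖f x - f m‖ := norm_pos_iff.2 (sub_ne_zero.2 fun h => hxm (hinj h))
      rw [map_sub] at h3
      have h5 : 0 < k * ‖f x - f m‖ ^ 2 := by positivity
      linarith) y
    rw [map_sub]
    linarith
  · rintro _ ⟨m, rfl⟩ G η W₁ W₂ hdim hneg hpos
    by_contra hcon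
    push Not at hcon
    obtain ⟨hk0, hkd, hk2⟩ := hcon
    have hk1 : 1 ≤ finrank ℝ W₁ := Nat.one_le_iff_ne_zero.2 hk0
    -- the height function in the chart
    set H : Vd (2 * d) → ℝ := fun z => η (G.g z) with hH
    have hg2 : ContDiff ℝ 2 G.g := G.smooth.of_le ENat.LEInfty.out
    have hHs : ContDiff ℝ 2 H := η.contDiff.comp hg2
    have hH0 : H 0 = 0 := by simp [hH, G.g0]
    have hH1 : fderiv ℝ H 0 = 0 := by
      have h1 : fderiv ℝ H 0 = η.comp (fderiv ℝ G.g 0) := fderiv_lcomp η G.g hg2 0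
      rw [h1, G.dg0, ContinuousLinearMap.comp_zero]
    have hHD : ∀ u, D2 H 0 u u = η (D2 G.g 0 u u) := fun u => D2_lcomp η G.g hg2 0 u u
    obtain ⟨r2, hr2, hr2'⟩ := pos_near H hHs hH0 hH1 W₂ (fun u hu hu0 => by
      rw [hHD]; exact hpos u hu hu0)
    obtain ⟨r1, hr1, hr1'⟩ := pos_near (fun z => -H z) hHs.neg (by simp [hH0])
      (by rw [fderiv_fun_neg, hH1, neg_zero]) W₁ (fun u hu hu0 => by
        have h1 : D2 (fun z => -H z) 0 u u = -D2 H 0 u u := by
          have e1 : (fun z => -H z) = fun z => (-η) (G.g z) := by ext z; simp [hH]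
          rw [e1, D2_lcomp (-η) G.g hg2, hHD]; simp
        rw [h1, hHD, neg_pos]
        exact hneg u hu hu0)
    -- the parametrization
    obtain ⟨δ, hδ, hδ'⟩ := G.nhds G.R G.hR
    have hparc : Continuous G.par := G.contDiff_par.continuous
    obtain ⟨r3, hr3, hr3'⟩ : ∃ r > 0, ∀ z : Vd (2 * d), ‖z‖ ≤ r → dist (G.par z) (f m) < δ := by
      have h1 := hparc.tendsto 0
      rw [G.par_zero] at h1
      obtain ⟨r, hr, hball⟩ := Metric.eventually_nhds_iff_ball.1 (h1.eventually (ball_mem_nhds _ hδ))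
      refine ⟨r / 2, half_pos hr, fun z hz => hball z ?_⟩
      rw [mem_ball_zero_iff]; linarith
    set R' := min (min r1 r2) (min r3 (G.R / 2)) with hR'
    have hR'pos : 0 < R' := lt_min (lt_min hr1 hr2) (lt_min hr3 (half_pos G.hR))
    have hR'1 : R' ≤ r1 := (min_le_left _ _).trans (min_le_left _ _)
    have hR'2 : R' ≤ r2 := (min_le_left _ _).trans (min_le_right _ _)
    have hR'3 : R' ≤ r3 := (min_le_right _ _).trans (min_le_left _ _)
    have hR'4 : R' < G.R := by
      have : R' ≤ G.R / 2 := (min_le_right _ _).trans (min_le_right _ _)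
      have := G.hR
      linarith
    have hne : Nonempty M := ⟨m⟩
    set φ : Vd (2 * d) → M := fun z => Function.invFun f (G.par z) with hφ
    have hfφ : ∀ z : Vd (2 * d), ‖z‖ < G.R → f (φ z) = G.par z := by
      intro z hz
      have h1 : G.par z ∈ range f := G.mem z (by rwa [mem_ball_zero_iff])
      exact Function.invFun_eq h1
    have hemb : IsClosedEmbedding f := hc.isClosedEmbedding hinj
    have hφc : ContinuousOn φ (closedBall 0 R') := by
      rw [hemb.isInducing.continuousOn_iff]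
      refine hparc.continuousOn.congr fun z hz => ?_
      rw [mem_closedBall_zero_iff] at hz
      exact hfφ z (lt_of_le_of_lt hz hR'4)
    have hparinj : ∀ z z', G.par z = G.par z' → z = z' := by
      intro z z' h
      have h1 : G.Θ (z, G.g z) = G.Θ (z', G.g z') := add_left_cancel h
      exact congrArg Prod.fst (G.Θ.injective h1)
    have hφi : InjOn φ (closedBall 0 R') := by
      intro z hz z' hz' h
      rw [mem_closedBall_zero_iff] at hz hz'
      apply hparinj
      rw [← hfφ z (lt_of_le_of_lt hz hR'4), ← hfφ z' (lt_of_le_of_lt hz' hR'4), h]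
    have hφo : ∀ r, 0 < r → r ≤ R' → IsOpen (φ '' ball 0 r) := by
      intro r hr hrR
      have h1 : φ '' ball 0 r = {x : M | dist (f x) (f m) < δ ∧
          ‖(G.Θ.symm (f x - f m)).1‖ < r} := by
        ext x
        constructor
        · rintro ⟨z, hz, rfl⟩
          rw [mem_ball_zero_iff] at hz
          have h2 : f (φ z) = G.par z := hfφ z (by linarith)
          refine ⟨?_, ?_⟩
          · rw [h2]; exact hr3' z (by linarith)
          · rw [h2, GraphChart.par, add_sub_cancel_left, G.Θ.symm_apply_apply]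
            exact hz
        · rintro ⟨h2, h3⟩
          obtain ⟨z, hz, hz'⟩ := hδ' (f x) (mem_range_self x) h2
          rw [mem_ball_zero_iff] at hz
          have h4 : (G.Θ.symm (f x - f m)).1 = z := by
            rw [hz', add_sub_cancel_left, G.Θ.symm_apply_apply]
          rw [h4] at h3
          refine ⟨z, by rwa [mem_ball_zero_iff], hinj ?_⟩
          rw [hfφ z hz, hz']
          rfl
      rw [h1]
      apply IsOpen.inter
      · exact isOpen_lt (hc.dist continuous_const) continuous_const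
      · have h5 : Continuous fun x : M => ‖(G.Θ.symm (f x - f m)).1‖ := by fun_prop
        exact isOpen_lt h5 continuous_const
    obtain ⟨π, ψ, hπψ, hψW, hπW⟩ := exists_proj W₁ W₂ hdim (by
      rw [eq_bot_iff]
      rintro u ⟨hu1, hu2⟩
      by_contra hu0
      exact lt_asymm (hneg u hu1 hu0) (hpos u hu2 hu0))
    -- the functional
    set ξ : EuclideanSpace ℝ (Fin (3 * d + 2)) →L[ℝ] ℝ :=
      (η.comp (ContinuousLinearMap.snd ℝ (Vd (2 * d)) (Vd (d + 2)))).comp
        (G.Θ.symm : EuclideanSpace ℝ (Fin (3 * d + 2)) →L[ℝ] (Vd (2 * d) × Vd (d + 2))) with hξ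
    have hξφ : ∀ z : Vd (2 * d), ‖z‖ ≤ R' → ξ (f (φ z)) = ξ (f m) + H z := by
      intro z hz
      rw [hfφ z (lt_of_le_of_lt hz hR'4), GraphChart.par, map_add]
      congr 1
      show η ((G.Θ.symm (G.Θ (z, G.g z))).2) = η (G.g z)
      rw [G.Θ.symm_apply_apply]
    have h0 : ξ (f (φ 0)) = ξ (f m) := by
      rw [hξφ 0 (by simpa using hR'pos.le), hH0, add_zero]
    have key := tight_T1 hk1 f hc ht ξ φ R' hR'pos hφc hφi hφo π ψ hπψ
      (fun x hx hxR => by
        rw [h0, hξφ _ hxR]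
        have h1 : ψ x ≠ 0 := by
          intro h
          apply hx
          rw [← hπψ x, h, map_zero]
        have h2 := hr1' (ψ x) (hψW x) h1 (hxR.trans hR'1)
        linarith)
      (fun z hz hzR hπz => by
        rw [h0, hξφ _ hzR]
        have h2 := hr2' z (hπW z hπz) hz (hzR.trans hR'2)
        linarith)
    exact key ((hM (finrank ℝ W₁)).2 (by tauto))

end Transfer

end Pool.Agent.TP
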