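import Pool.Agent.Lib_helper39.TP.Stmt

open Module Metric Set Filter Topology CategoryTheory
open scoped ContDiff Quaternion Manifold Matrix

noncomputable section
namespace Pool.Agent.TP

section C1
variable {d : ℕ} (K : Type) [NonAssocRing K] [StarRing K] [Module ℝ K]
    [StarModule ℝ K] [SMulCommClass ℝ K K] [IsScalarTower ℝ K K] (A : CA d) (ι : K ≃ₗ[ℝ] Vd d)
    (hn : ∀ x, star x * x = (‖ι x‖ ^ 2) • (1 : K))

variable {K}

include hn in
theorem star_mul_add (x y : K) :
    star x * y + star y * x = (2 * inner ℝ (ι x) (ι y)) • (1 : K) := by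
  have h := hn (x + y)
  rw [star_add, add_mul, mul_add, mul_add, hn x, hn y, map_add, norm_add_sq_real] at h
  have h2 : star x * y + star y * x =
      ((‖ι x‖ ^ 2) • (1 : K) + star x * y + (star y * x + (‖ι y‖ ^ 2) • (1 : K))) -
        ((‖ι x‖ ^ 2) • (1 : K) + (‖ι y‖ ^ 2) • (1 : K)) := by abel
  rw [h2, h, add_smul, add_smul]
  abel

include hn in
theorem add_star (x : K) : x + star x = (2 * inner ℝ (ι x) (ι 1)) • (1 : K) := by
  have := star_mul_add ι hn x 1
  rw [mul_one, star_one, one_mul, add_comm] at this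
  exact this

include hn in
theorem eq_re_smul {x : K} (hx : star x = x) : x = (inner ℝ (ι x) (ι 1) : ℝ) • (1 : K) := by
  have h := add_star ι hn x
  rw [hx, ← two_smul ℝ x, mul_smul] at h
  exact smul_right_injective K (two_ne_zero' ℝ) h

include hn in
theorem norm_one_sq (hd : 1 ≤ d) : ‖ι 1‖ ^ 2 = 1 := by
  have h := hn 1
  rw [star_one, mul_one] at h
  have h1 : ι 1 ≠ 0 := by
    intro h0
    rw [h0] at h
    have h2 : (1 : K) = 0 := by simpa using h
    have h3 : ∀ v : Vd d, v = 0 := by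
      intro v
      have h4 : ι.symm v = 0 := by rw [← mul_one (ι.symm v), h2, mul_zero]
      simpa using congrArg ι h4
    have h5 := h3 (EuclideanSpace.single ⟨0, hd⟩ (1 : ℝ))
    have h6 := congrArg norm h5
    simp at h6
  have h2 := congrArg ι h
  rw [map_smul] at h2
  have h3 : (1 - ‖ι 1‖ ^ 2) • ι 1 = 0 := by rw [sub_smul, one_smul, ← h2, sub_self]
  have h4 := (smul_eq_zero.1 h3).resolve_right h1
  linarith

include hn in
theorem smul_one_inj (hd : 1 ≤ d) {c c' : ℝ} : c • (1 : K) = c' • (1 : K) ↔ c = c' := by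
  refine ⟨fun h => ?_, fun h => by rw [h]⟩
  have h1 := congrArg (fun x => (inner ℝ (ι x) (ι 1) : ℝ)) h
  simp only [map_smul, real_inner_smul_left, real_inner_self_eq_norm_sq,
    norm_one_sq ι hn hd, mul_one] at h1
  exact h1

include hn in
theorem mul_star_self' (hc : ∀ x, ι (star x) = A.c (ι x)) (x : K) :
    x * star x = (‖ι x‖ ^ 2) • (1 : K) := by
  have := hn (star x)
  rwa [star_star, hc, A.norm_c] at this

/-- the Hermitian matrix with given entries -/
def hmat (l r s : ℝ) (a b t : K) : Matrix (Fin 3) (Fin 3) K :=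
  Matrix.of ![![l • 1, a, b], ![star a, r • 1, t], ![star b, star t, s • 1]]

omit [SMulCommClass ℝ K K] [IsScalarTower ℝ K K] in
theorem hmat_herm (l r s : ℝ) (a b t : K) : hmat l r s a b t ∈ Herm3 K := by
  show (hmat l r s a b t)ᴴ = _
  ext i j
  fin_cases i <;> fin_cases j <;> simp [hmat, Matrix.conjTranspose_apply]

include hn in
theorem hmat_std (hd : 1 ≤ d) (hc : ∀ x, ι (star x) = A.c (ι x)) (l r s : ℝ) (a b t : K) :
    (hmat l r s a b t * hmat l r s a b t = hmat l r s a b t ∧
      Matrix.trace (hmat l r s a b t) = 1) ↔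
    ((‖ι a‖ ^ 2 = l * r ∧ ‖ι b‖ ^ 2 = l * s ∧ ‖ι t‖ ^ 2 = r * s ∧
      star a * b = l • t ∧ a * t = r • b ∧ b * star t = s • a) ∧ l + r + s = 1) := by
  have hs := mul_star_self' A ι hn hc
  have htr : Matrix.trace (hmat l r s a b t) = (l + r + s) • (1 : K) := by
    rw [Matrix.trace, Fin.sum_univ_three]
    simp [hmat, add_smul]
  have h1 : (1 : K) = (1 : ℝ) • (1 : K) := (one_smul ℝ 1).symm
  have htr' : Matrix.trace (hmat l r s a b t) = 1 ↔ l + r + s = 1 := by
    rw [htr]
    conv_lhs => rw [h1]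
    rw [smul_smul, mul_one]
    exact smul_one_inj ι hn hd
  rw [htr']
  have hentry : hmat l r s a b t * hmat l r s a b t = hmat l r s a b t ↔
      (l ^ 2 + ‖ι a‖ ^ 2 + ‖ι b‖ ^ 2 = l ∧ ‖ι a‖ ^ 2 + r ^ 2 + ‖ι t‖ ^ 2 = r ∧
        ‖ι b‖ ^ 2 + ‖ι t‖ ^ 2 + s ^ 2 = s ∧
        l • a + r • a + b * star t = a ∧ l • b + a * t + s • b = b ∧
        star a * b + r • t + s • t = t) := by
    constructor
    · intro h
      have e : ∀ i j, (hmat l r s a b t * hmat l r s a b t) i j = hmat l r s a b t i j := by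
        intro i j; rw [h]
      have e00 := e 0 0
      have e11 := e 1 1
      have e22 := e 2 2
      have e01 := e 0 1
      have e02 := e 0 2
      have e12 := e 1 2
      simp only [Matrix.mul_apply, Fin.sum_univ_three, hmat, Matrix.of_apply, Matrix.cons_val',
        Matrix.cons_val_zero, Matrix.cons_val_one, Matrix.cons_val, smul_mul_assoc, one_mul,
        mul_smul_comm, mul_one, smul_smul, hs, hn, ← add_smul] at e00 e11 e22 e01 e02 e12
      rw [smul_one_inj ι hn hd] at e00 e11 e22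
      refine ⟨by linarith, by linarith, by linarith, ?_, ?_, ?_⟩
      · rw [← add_smul]; exact e01
      · exact e02
      · exact e12
    · rintro ⟨e00, e11, e22, e01, e02, e12⟩
      have e10 := congrArg star e01
      have e20 := congrArg star e02
      have e21 := congrArg star e12
      simp only [star_add, star_mul, star_star, star_smul, star_trivial] at e10 e20 e21
      ext i j
      fin_cases i <;> fin_cases j <;>
      simp only [Fin.zero_eta, Fin.mk_one, Fin.reduceFinMk, Matrix.mul_apply, Fin.sum_univ_three,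
        hmat, Matrix.of_apply, Matrix.cons_val',
        Matrix.cons_val_zero, Matrix.cons_val_one, Matrix.cons_val, smul_mul_assoc, one_mul,
        mul_smul_comm, mul_one, smul_smul, hs, hn]
      · rw [← add_smul, ← add_smul, smul_one_inj ι hn hd]; linarith
      · exact e01
      · exact e02
      · refine Eq.trans ?_ e10; abel
      · rw [← add_smul, ← add_smul, smul_one_inj ι hn hd]; linarith
      · exact e12
      · refine Eq.trans ?_ e20; abel
      · refine Eq.trans ?_ e21; abel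
      · rw [← add_smul, ← add_smul, smul_one_inj ι hn hd]; linarith
  rw [hentry]
  constructor
  · rintro ⟨⟨e00, e11, e22, e01, e02, e12⟩, ht⟩
    have f1 : l * (l + r + s) = l := by rw [ht, mul_one]
    have f2 : r * (l + r + s) = r := by rw [ht, mul_one]
    have f3 : s * (l + r + s) = s := by rw [ht, mul_one]
    refine ⟨⟨by nlinarith, by nlinarith, by nlinarith, ?_, ?_, ?_⟩, ht⟩
    · have g1 : star a * b = t - r • t - s • t := by
        rw [eq_sub_iff_add_eq, eq_sub_iff_add_eq, ← e12]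
        have : star a * b + r • t + s • t = t := e12
        rw [this]
        rw [add_right_comm]; exact e12
      have g2 : l = 1 - r - s := by linarith
      rw [g1, g2, sub_smul, sub_smul, one_smul]
    · have g1 : a * t = b - l • b - s • b := by
        rw [eq_sub_iff_add_eq, eq_sub_iff_add_eq]
        have : a * t + s • b + l • b = l • b + a * t + s • b := by abel
        rw [this]; exact e02
      have g2 : r = 1 - l - s := by linarith
      rw [g1, g2, sub_smul, sub_smul, one_smul]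
    · have g1 : b * star t = a - l • a - r • a := by
        rw [eq_sub_iff_add_eq, eq_sub_iff_add_eq]
        have : b * star t + r • a + l • a = l • a + r • a + b * star t := by abel
        rw [this]; exact e01
      have g2 : s = 1 - l - r := by linarith
      rw [g1, g2, sub_smul, sub_smul, one_smul]
  · rintro ⟨⟨h1, h2, h3, h4, h5, h6⟩, ht⟩
    have f1 : l * (l + r + s) = l := by rw [ht, mul_one]
    have f2 : r * (l + r + s) = r := by rw [ht, mul_one]
    have f3 : s * (l + r + s) = s := by rw [ht, mul_one]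
    refine ⟨⟨by nlinarith, by nlinarith, by nlinarith, ?_, ?_, ?_⟩, ht⟩
    · rw [h6, ← add_smul, ← add_smul, ht, one_smul]
    · rw [h5, ← add_smul, ← add_smul, ht, one_smul]
    · rw [h4, ← add_smul, ← add_smul, ht, one_smul]

theorem herm_eq_hmat (X : Matrix (Fin 3) (Fin 3) K) (hX : Xᴴ = X)
    (hre : ∀ x : K, star x = x → x = (inner ℝ (ι x) (ι 1) : ℝ) • (1 : K)) :
    X = hmat (inner ℝ (ι (X 0 0)) (ι 1)) (inner ℝ (ι (X 1 1)) (ι 1))
      (inner ℝ (ι (X 2 2)) (ι 1)) (X 0 1) (X 0 2) (X 1 2) := by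
  have h : ∀ i j, star (X j i) = X i j := by
    intro i j
    have := congrFun (congrFun hX i) j
    rwa [Matrix.conjTranspose_apply] at this
  have h00 := hre _ (h 0 0)
  have h11 := hre _ (h 1 1)
  have h22 := hre _ (h 2 2)
  ext i j
  fin_cases i <;> fin_cases j
  · exact h00
  · rfl
  · rfl
  · exact (h 1 0).symm
  · exact h11
  · rfl
  · exact (h 2 0).symm
  · exact (h 2 1).symm
  · exact h22

/-- (C1) -/
theorem exists_herm_coords {d : ℕ} (hd : 1 ≤ d) (K : Type) [NonAssocRing K] [StarRing K] [Module ℝ K]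
    [StarModule ℝ K] [SMulCommClass ℝ K K] [IsScalarTower ℝ K K] (A : CA d) (ι : K ≃ₗ[ℝ] Vd d)
    (hm : ∀ x y, ι (x * y) = A.m (ι x) (ι y)) (hc : ∀ x, ι (star x) = A.c (ι x))
    (hn : ∀ x, star x * x = (‖ι x‖ ^ 2) • (1 : K)) :
    ∃ Ψ : Herm3 K ≃ₗ[ℝ] Model d,
      (∀ X : Herm3 K, X ∈ stdModel K ↔ Ψ X ∈ A.cone ∧ mtr (Ψ X) = 1) := by
  have hre : ∀ x : K, star x = x → x = (inner ℝ (ι x) (ι 1) : ℝ) • (1 : K) :=
    fun x hx => eq_re_smul ι hn hx
  have hn1 := norm_one_sq ι hn hd
  have hinner : ∀ c : ℝ, inner ℝ (ι (c • (1 : K))) (ι 1) = c := by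
    intro c
    rw [map_smul, real_inner_smul_left, real_inner_self_eq_norm_sq, hn1, mul_one]
  let Ψ : Herm3 K ≃ₗ[ℝ] Model d :=
    { toFun := fun X => ((inner ℝ (ι (X.1 0 0)) (ι 1), inner ℝ (ι (X.1 1 1)) (ι 1),
        inner ℝ (ι (X.1 2 2)) (ι 1)), (ι (X.1 0 1), ι (X.1 0 2), ι (X.1 1 2)))
      map_add' := fun X Y => by
        simp only [Submodule.coe_add, Matrix.add_apply, map_add, inner_add_left, Prod.mk_add_mk]
      map_smul' := fun c X => by
        simp only [Submodule.coe_smul, Matrix.smul_apply, map_smul, real_inner_smul_left,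
          RingHom.id_apply, Prod.smul_mk, smul_eq_mul]
      invFun := fun Y => ⟨hmat Y.1.1 Y.1.2.1 Y.1.2.2 (ι.symm Y.2.1) (ι.symm Y.2.2.1)
        (ι.symm Y.2.2.2), hmat_herm _ _ _ _ _ _⟩
      left_inv := fun X => by
        apply Subtype.ext
        simp only [LinearEquiv.symm_apply_apply]
        exact (herm_eq_hmat ι X.1 X.2 hre).symm
      right_inv := fun Y => by
        simp only [hmat, Matrix.of_apply, Matrix.cons_val', Matrix.cons_val_zero,
          Matrix.cons_val_one, Matrix.cons_val, hinner, LinearEquiv.apply_symm_apply] }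
  have hΨ : ∀ X : Herm3 K, Ψ X = ((inner ℝ (ι (X.1 0 0)) (ι 1), inner ℝ (ι (X.1 1 1)) (ι 1),
        inner ℝ (ι (X.1 2 2)) (ι 1)), (ι (X.1 0 1), ι (X.1 0 2), ι (X.1 1 2))) := fun X => rfl
  refine ⟨Ψ, fun X => ?_⟩
  have h1 : X ∈ stdModel K ↔ (X.1 * X.1 = X.1 ∧ Matrix.trace X.1 = 1) := Iff.rfl
  rw [h1]
  have h2 := herm_eq_hmat ι X.1 X.2 hre
  have h3 := hmat_std A ι hn hd hc (inner ℝ (ι (X.1 0 0)) (ι 1)) (inner ℝ (ι (X.1 1 1)) (ι 1))
      (inner ℝ (ι (X.1 2 2)) (ι 1)) (X.1 0 1) (X.1 0 2) (X.1 1 2)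
  rw [← h2] at h3
  rw [h3, hΨ]
  refine and_congr ?_ Iff.rfl
  have i1 : ∀ (x y : K) (c : ℝ) (z : K), x * y = c • z ↔ A.m (ι x) (ι y) = c • ι z := by
    intro x y c z
    rw [← hm, ← map_smul, ι.injective.eq_iff]
  rw [i1, i1, i1, hc, hc]
  exact Iff.rfl

end C1
end Pool.Agent.TP
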