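import Pool.Agent.Lib_helper48.TP.H0

open Module Metric Set Filter Topology
open scoped ContDiff

noncomputable section
namespace Pool.Agent.TP

section H4
variable {E : Type} [NormedAddCommGroup E] [InnerProductSpace ℝ E] [FiniteDimensional ℝ E]
variable {d : ℕ}

/-- the equations of the cone -/
def ceq (A : CA d) (X : Model d) : Model d :=
  ((‖X.2.1‖ ^ 2 - X.1.1 * X.1.2.1, ‖X.2.2.1‖ ^ 2 - X.1.1 * X.1.2.2,
    ‖X.2.2.2‖ ^ 2 - X.1.2.1 * X.1.2.2),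
   (A.m (A.c X.2.1) X.2.2.1 - X.1.1 • X.2.2.2, A.m X.2.1 X.2.2.2 - X.1.2.1 • X.2.2.1,
    A.m X.2.2.1 (A.c X.2.2.2) - X.1.2.2 • X.2.1))

theorem mem_cone_iff_ceq (A : CA d) (X : Model d) : X ∈ A.cone ↔ ceq A X = 0 := by
  constructor
  · rintro ⟨h1, h2, h3, h4, h5, h6⟩
    simp only [ceq, h1, h2, h3, h4, h5, h6, sub_self]
    rfl
  · intro h
    simp only [ceq, Prod.ext_iff, Prod.fst_zero, Prod.snd_zero, sub_eq_zero] at h
    obtain ⟨⟨h1, h2, h3⟩, h4, h5, h6⟩ := h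
    exact ⟨h1, h2, h3, h4, h5, h6⟩

theorem contDiff_ceq (A : CA d) {n : WithTop ℕ∞} : ContDiff ℝ n (ceq A) := by
  have l : ContDiff ℝ n fun X : Model d => X.1.1 := by fun_prop
  have r : ContDiff ℝ n fun X : Model d => X.1.2.1 := by fun_prop
  have s : ContDiff ℝ n fun X : Model d => X.1.2.2 := by fun_prop
  have a : ContDiff ℝ n fun X : Model d => X.2.1 := by fun_prop
  have b : ContDiff ℝ n fun X : Model d => X.2.2.1 := by fun_prop
  have t : ContDiff ℝ n fun X : Model d => X.2.2.2 := by fun_prop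
  refine ContDiff.prodMk (ContDiff.prodMk ?_ (ContDiff.prodMk ?_ ?_))
    (ContDiff.prodMk ?_ (ContDiff.prodMk ?_ ?_))
  · exact (a.norm_sq ℝ).sub (l.mul r)
  · exact (b.norm_sq ℝ).sub (l.mul s)
  · exact (t.norm_sq ℝ).sub (r.mul s)
  · exact ((A.m.contDiff.comp (A.c.contDiff.comp a)).clm_apply b).sub (l.smul t)
  · exact ((A.m.contDiff.comp a).clm_apply t).sub (r.smul b)
  · exact ((A.m.contDiff.comp b).clm_apply (A.c.contDiff.comp t)).sub (s.smul a)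

/-- polynomial identity theorem for the parametrized cone -/
theorem cone_identity (A : CA d) (g : Model d →L[ℝ] Model d) (w0 : Vd d × Vd d)
    (h : ∀ᶠ w in 𝓝 w0, g (NN A w) ∈ A.cone) (w : Vd d × Vd d) : g (NN A w) ∈ A.cone := by
  have h1 : AnalyticOnNhd ℝ (fun w => ceq A (g (NN A w))) univ :=
    contDiff_omega_iff_analyticOnNhd.1
      ((contDiff_ceq A).comp (g.contDiff.comp (contDiff_NN A)))
  have h2 : (fun w => ceq A (g (NN A w))) =ᶠ[𝓝 w0] fun _ => 0 := by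
    filter_upwards [h] with w hw
    exact (mem_cone_iff_ceq A _).1 hw
  have h3 := h1.eq_of_eventuallyEq analyticOnNhd_const h2
  exact (mem_cone_iff_ceq A _).2 (congrFun h3 w)

/-- (H4) identity theorem: if `S` is in the cone near `p` for `Λ'` and near points arbitrarily
close to `p` for `Λ`, then it is so near `p` for `Λ`.  (Uses H0.) -/
theorem near_of_closure (hd : 1 ≤ d) (A : CA d) {S : Set E} (hS : TightSet d S)
    (Λ Λ' : (ℝ × E) ≃L[ℝ] Model d) {p : E} (hp : p ∈ closure {x ∈ S | NearIn A S Λ x})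
    (h' : NearIn A S Λ' p) (hl : Λ' (1, p) = ((1, 0, 0), (0, 0, 0))) : NearIn A S Λ p := by
  set g : Model d →L[ℝ] Model d :=
    (Λ : (ℝ × E) →L[ℝ] Model d).comp (Λ'.symm : Model d →L[ℝ] (ℝ × E)) with hg
  have hgΛ : ∀ x : E, g (Λ' (1, x)) = Λ (1, x) := by
    intro x
    show Λ (Λ'.symm (Λ' (1, x))) = _
    rw [Λ'.symm_apply_apply]
  have hcont : Continuous fun x : E => L1 d (Λ' (1, x)) := by fun_prop
  have hlp : ∀ᶠ x in 𝓝[S] p, L1 d (Λ' (1, x)) ≠ 0 := by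
    refine mem_nhdsWithin_of_mem_nhds ?_
    refine hcont.continuousAt.eventually_ne ?_
    rw [hl]; exact one_ne_zero
  have hfreq : ∃ᶠ x in 𝓝[S] p, NearIn A S Λ x := by
    rw [frequently_nhdsWithin_iff]
    exact (mem_closure_iff_frequently.1 hp).mono fun x hx => ⟨hx.2, hx.1⟩
  have hev : ∀ᶠ x in 𝓝[S] p, NearIn A S Λ' x := eventually_eventually_nhdsWithin.2 h'
  obtain ⟨x0, h1, ⟨h2, h3⟩, h4⟩ :=
    (hfreq.and_eventually ((hev.and hlp).and self_mem_nhdsWithin)).exists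
  have hX0c : Λ' (1, x0) ∈ A.cone := h2.self_of_nhdsWithin h4
  obtain ⟨U, hU, hUS⟩ : ∃ U ∈ 𝓝 x0, ∀ x ∈ U, x ∈ S → Λ (1, x) ∈ A.cone := by
    have := eventually_nhdsWithin_iff.1 h1
    exact ⟨_, this, fun x hx => hx⟩
  have h5 := chart_open hd A hS Λ' h4 h2 h3 U hU
  have h6 : ∀ᶠ X in 𝓝[A.cone] (Λ' (1, x0)), g X ∈ A.cone := by
    filter_upwards [h5] with X hX
    obtain ⟨x, ⟨hx1, hx2⟩, c, hc, hcx⟩ := hX
    have h7 : Λ (1, x) ∈ A.cone := hUS x hx2 hx1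
    rw [← hgΛ, hcx, map_smul, smul_mem_cone_iff A hc] at h7
    exact h7
  set l0 := L1 d (Λ' (1, x0)) with hl0
  set w0 := l0⁻¹ • L2 d (Λ' (1, x0)) with hw0
  have h7 : Λ' (1, x0) = l0 • NN A w0 := eq_smul_NN' A hX0c h3
  have h8 : Tendsto (fun w => l0 • NN A w) (𝓝 w0) (𝓝[A.cone] (Λ' (1, x0))) := by
    refine tendsto_nhdsWithin_iff.2 ⟨?_, Eventually.of_forall fun w => smul_mem_cone A _ (NN_mem A w)⟩
    rw [h7]
    exact (((contDiff_NN A (n := 0)).continuous.const_smul l0).tendsto w0)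
  have h9 : ∀ᶠ w in 𝓝 w0, g (NN A w) ∈ A.cone := by
    filter_upwards [h8.eventually h6] with w hw
    rwa [map_smul, smul_mem_cone_iff A h3] at hw
  have h10 := cone_identity A g w0 h9
  filter_upwards [h', hlp] with x hx1 hx2
  rw [← hgΛ, eq_smul_NN' A hx1 hx2, map_smul]
  exact smul_mem_cone A _ (h10 _)

end H4

section H5
variable {d : ℕ} (A : CA d)

/-- exchange of the first two indices -/
def s12L : Model d →ₗ[ℝ] Model d where
  toFun X := ((X.1.2.1, X.1.1, X.1.2.2), (A.c X.2.1, X.2.2.2, X.2.2.1))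
  map_add' X Y := by simp
  map_smul' c X := by simp

/-- exchange of the first and third index -/
def s13L : Model d →ₗ[ℝ] Model d where
  toFun X := ((X.1.2.2, X.1.2.1, X.1.1), (A.c X.2.2.2, A.c X.2.2.1, A.c X.2.1))
  map_add' X Y := by simp
  map_smul' c X := by simp

def s12 : Model d ≃L[ℝ] Model d :=
  (LinearEquiv.ofInvolutive (s12L A) (fun X => by simp [s12L, A.c_c])).toContinuousLinearEquiv

def s13 : Model d ≃L[ℝ] Model d :=
  (LinearEquiv.ofInvolutive (s13L A) (fun X => by simp [s13L, A.c_c])).toContinuousLinearEquiv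

theorem s12_apply (X : Model d) :
    s12 A X = ((X.1.2.1, X.1.1, X.1.2.2), (A.c X.2.1, X.2.2.2, X.2.2.1)) := rfl

theorem s13_apply (X : Model d) :
    s13 A X = ((X.1.2.2, X.1.2.1, X.1.1), (A.c X.2.2.2, A.c X.2.2.1, A.c X.2.1)) := rfl

theorem s12_s12 (X : Model d) : s12 A (s12 A X) = X := by
  simp [s12_apply, A.c_c]

theorem s13_s13 (X : Model d) : s13 A (s13 A X) = X := by
  simp [s13_apply, A.c_c]

theorem s12_mem {X : Model d} (hX : X ∈ A.cone) : s12 A X ∈ A.cone := by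
  obtain ⟨h1, h2, h3, h4, h5, h6⟩ := hX
  refine ⟨?_, ?_, ?_, ?_, ?_, ?_⟩
  · show ‖A.c X.2.1‖ ^ 2 = X.1.2.1 * X.1.1
    rw [A.norm_c, h1, mul_comm]
  · exact h3
  · exact h2
  · show A.m (A.c (A.c X.2.1)) X.2.2.2 = X.1.2.1 • X.2.2.1
    rw [A.c_c]; exact h5
  · exact h4
  · show A.m X.2.2.2 (A.c X.2.2.1) = X.1.2.2 • A.c X.2.1
    have := congrArg A.c h6
    rw [A.c_m, A.c_c, map_smul] at this
    exact this

theorem s13_mem {X : Model d} (hX : X ∈ A.cone) : s13 A X ∈ A.cone := by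
  obtain ⟨h1, h2, h3, h4, h5, h6⟩ := hX
  refine ⟨?_, ?_, ?_, ?_, ?_, ?_⟩
  · show ‖A.c X.2.2.2‖ ^ 2 = X.1.2.2 * X.1.2.1
    rw [A.norm_c, h3, mul_comm]
  · show ‖A.c X.2.2.1‖ ^ 2 = X.1.2.2 * X.1.1
    rw [A.norm_c, h2, mul_comm]
  · show ‖A.c X.2.1‖ ^ 2 = X.1.2.1 * X.1.1
    rw [A.norm_c, h1, mul_comm]
  · show A.m (A.c (A.c X.2.2.2)) (A.c X.2.2.1) = X.1.2.2 • A.c X.2.1
    have := congrArg A.c h6
    rw [A.c_m, A.c_c, map_smul] at this
    rw [A.c_c]; exact this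
  · show A.m (A.c X.2.2.2) (A.c X.2.1) = X.1.2.1 • A.c X.2.2.1
    have := congrArg A.c h5
    rw [A.c_m, map_smul] at this
    exact this
  · show A.m (A.c X.2.2.1) (A.c (A.c X.2.1)) = X.1.1 • A.c X.2.2.2
    have := congrArg A.c h4
    rw [A.c_m, map_smul] at this
    exact this

theorem s12_mem_iff {X : Model d} : s12 A X ∈ A.cone ↔ X ∈ A.cone :=
  ⟨fun h => by have := s12_mem A h; rwa [s12_s12] at this, s12_mem A⟩

theorem s13_mem_iff {X : Model d} : s13 A X ∈ A.cone ↔ X ∈ A.cone :=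
  ⟨fun h => by have := s13_mem A h; rwa [s13_s13] at this, s13_mem A⟩

theorem s12_mtr (X : Model d) : mtr (s12 A X) = mtr X := by
  simp only [s12_apply, mtr]; ring

theorem s13_mtr (X : Model d) : mtr (s13 A X) = mtr X := by
  simp only [s13_apply, mtr]; ring

/-- the trace of the parametrization -/
def nn (w : Vd d × Vd d) : ℝ := 1 + ‖w.1‖ ^ 2 + ‖w.2‖ ^ 2

theorem nn_pos (w : Vd d × Vd d) : 0 < nn w := by unfold nn; positivity

theorem mtr_smul (c : ℝ) (X : Model d) : mtr (c • X) = c * mtr X := by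
  show c * X.1.1 + c * X.1.2.1 + c * X.1.2.2 = _
  rw [mtr]; ring

theorem std_l_eq : {X : Model d | (X ∈ A.cone ∧ mtr X = 1) ∧ X.1.1 ≠ 0} =
    range fun w => (nn w)⁻¹ • NN A w := by
  ext X
  constructor
  · rintro ⟨⟨hX, ht⟩, hl⟩
    refine ⟨(X.1.1⁻¹ • X.2.1, X.1.1⁻¹ • X.2.2.1), ?_⟩
    set w : Vd d × Vd d := (X.1.1⁻¹ • X.2.1, X.1.1⁻¹ • X.2.2.1) with hw
    have h1 : X = X.1.1 • NN A w := eq_smul_NN A hX hl
    have h2 : X.1.1 * nn w = 1 := by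
      rw [← ht]
      conv_rhs => rw [h1]
      rw [mtr_smul]; rfl
    have h3 : (nn w)⁻¹ = X.1.1 := (eq_inv_of_mul_eq_one_left h2).symm
    show (nn w)⁻¹ • NN A w = X
    rw [h3, ← h1]
  · rintro ⟨w, rfl⟩
    refine ⟨⟨smul_mem_cone A _ (NN_mem A w), ?_⟩, ?_⟩
    · show mtr ((nn w)⁻¹ • NN A w) = 1
      rw [mtr_smul]
      exact inv_mul_cancel₀ (nn_pos w).ne'
    · show (nn w)⁻¹ * 1 ≠ 0
      rw [mul_one]
      exact inv_ne_zero (nn_pos w).ne'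

theorem std_l_conn : IsConnected {X : Model d | (X ∈ A.cone ∧ mtr X = 1) ∧ X.1.1 ≠ 0} := by
  rw [std_l_eq]
  refine isConnected_range ?_
  have h1 : Continuous (nn : Vd d × Vd d → ℝ) := by unfold nn; fun_prop
  exact (h1.inv₀ fun w => (nn_pos w).ne').smul (contDiff_NN A (n := 0)).continuous

theorem std_r_conn : IsConnected {X : Model d | (X ∈ A.cone ∧ mtr X = 1) ∧ X.1.2.1 ≠ 0} := by
  have h := (std_l_conn A).image (s12 A) (s12 A).continuous.continuousOn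
  convert h using 1
  ext X
  constructor
  · rintro ⟨⟨h1, h2⟩, h3⟩
    exact ⟨s12 A X, ⟨⟨s12_mem A h1, by rw [s12_mtr]; exact h2⟩, h3⟩, s12_s12 A X⟩
  · rintro ⟨Y, ⟨⟨h1, h2⟩, h3⟩, rfl⟩
    exact ⟨⟨s12_mem A h1, by rw [s12_mtr]; exact h2⟩, h3⟩

theorem std_s_conn : IsConnected {X : Model d | (X ∈ A.cone ∧ mtr X = 1) ∧ X.1.2.2 ≠ 0} := by
  have h := (std_l_conn A).image (s13 A) (s13 A).continuous.continuousOn
  convert h using 1
  ext X
  constructor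
  · rintro ⟨⟨h1, h2⟩, h3⟩
    exact ⟨s13 A X, ⟨⟨s13_mem A h1, by rw [s13_mtr]; exact h2⟩, h3⟩, s13_s13 A X⟩
  · rintro ⟨Y, ⟨⟨h1, h2⟩, h3⟩, rfl⟩
    exact ⟨⟨s13_mem A h1, by rw [s13_mtr]; exact h2⟩, h3⟩

theorem h_isConnected_stdCone (hd : 1 ≤ d) :
    IsConnected {X : Model d | X ∈ A.cone ∧ mtr X = 1} := by
  have hdec : {X : Model d | X ∈ A.cone ∧ mtr X = 1} =
      ({X : Model d | (X ∈ A.cone ∧ mtr X = 1) ∧ X.1.2.1 ≠ 0} ∪
        {X : Model d | (X ∈ A.cone ∧ mtr X = 1) ∧ X.1.1 ≠ 0}) ∪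
        {X : Model d | (X ∈ A.cone ∧ mtr X = 1) ∧ X.1.2.2 ≠ 0} := by
    ext X
    simp only [mem_union, Set.mem_ofPred_eq]
    constructor
    · intro h
      by_cases h1 : X.1.1 = 0
      · by_cases h2 : X.1.2.1 = 0
        · refine Or.inr ⟨h, fun h3 => ?_⟩
          have := h.2
          rw [mtr, h1, h2, h3] at this
          norm_num at this
        · exact Or.inl (Or.inl ⟨h, h2⟩)
      · exact Or.inl (Or.inr ⟨h, h1⟩)
    · rintro ((h | h) | h) <;> exact h.1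
  obtain ⟨e, he⟩ : ∃ e : Vd d, ‖e‖ = 1 := by
    refine ⟨EuclideanSpace.single ⟨0, hd⟩ (1 : ℝ), ?_⟩
    simp
  have hw : ∀ w : Vd d × Vd d, (nn w)⁻¹ • NN A w ∈
      {X : Model d | (X ∈ A.cone ∧ mtr X = 1) ∧ X.1.1 ≠ 0} := by
    intro w; rw [std_l_eq]; exact mem_range_self w
  rw [hdec]
  refine IsConnected.union ?_ (IsConnected.union ?_ (std_r_conn A) (std_l_conn A)) (std_s_conn A)
  · refine ⟨(nn ((0 : Vd d), e))⁻¹ • NN A ((0 : Vd d), e), Or.inr (hw _), (hw _).1, ?_⟩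
    show (nn ((0 : Vd d), e))⁻¹ * ‖e‖ ^ 2 ≠ 0
    rw [he]
    exact mul_ne_zero (inv_ne_zero (nn_pos _).ne') (by norm_num)
  · refine ⟨(nn (e, (0 : Vd d)))⁻¹ • NN A (e, (0 : Vd d)), ⟨(hw _).1, ?_⟩, hw _⟩
    show (nn (e, (0 : Vd d)))⁻¹ * ‖e‖ ^ 2 ≠ 0
    rw [he]
    exact mul_ne_zero (inv_ne_zero (nn_pos _).ne') (by norm_num)

end H5

section H5'
variable {E : Type} [NormedAddCommGroup E] [InnerProductSpace ℝ E] [FiniteDimensional ℝ E]
variable {d : ℕ}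

theorem open_at (hd : 1 ≤ d) (A : CA d) {S : Set E} (hS : TightSet d S)
    (Λ : (ℝ × E) ≃L[ℝ] Model d) (h : ∀ x ∈ S, Λ (1, x) ∈ A.cone)
    (σ : Model d ≃L[ℝ] Model d) (hσ : ∀ X, σ X ∈ A.cone ↔ X ∈ A.cone) {x0 : E} (hx0 : x0 ∈ S)
    (hl : (σ (Λ (1, x0))).1.1 ≠ 0) :
    ∀ᶠ X in 𝓝[A.cone] (Λ (1, x0)), ∃ x ∈ S, ∃ c : ℝ, c ≠ 0 ∧ Λ (1, x) = c • X := by
  have h1 : NearIn A S (Λ.trans σ) x0 :=
    eventually_nhdsWithin_of_forall fun x hx => (hσ _).2 (h x hx)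
  have h2 := chart_open hd A hS (Λ.trans σ) hx0 h1 hl univ univ_mem
  have h3 : Tendsto σ (𝓝[A.cone] (Λ (1, x0))) (𝓝[A.cone] ((Λ.trans σ) (1, x0))) := by
    refine tendsto_nhdsWithin_iff.2 ⟨?_, ?_⟩
    · exact (σ.continuous.tendsto _).mono_left nhdsWithin_le_nhds
    · exact eventually_nhdsWithin_of_forall fun X hX => (hσ X).2 hX
  filter_upwards [h3.eventually h2] with X hX
  obtain ⟨x, ⟨hx, -⟩, c, hc, hcx⟩ := hX
  refine ⟨x, hx, c, hc, σ.injective ?_⟩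
  rw [map_smul, ← hcx]
  rfl

/-- (H5) surjectivity onto the model -/
theorem surj_of_near (hd : 1 ≤ d) (A : CA d) {S : Set E} (hS : TightSet d S)
    (Λ : (ℝ × E) ≃L[ℝ] Model d) (h : ∀ x ∈ S, Λ (1, x) ∈ A.cone) :
    ∀ X ∈ A.cone, mtr X = 1 → ∃ x ∈ S, ∃ c : ℝ, c ≠ 0 ∧ Λ (1, x) = c • X := by
  have hne : ∀ x : E, Λ (1, x) ≠ 0 := by
    intro x h0
    have := Λ.injective (h0.trans (map_zero Λ).symm)
    simpa using congrArg Prod.fst this
  have htr : ∀ x ∈ S, mtr (Λ (1, x)) ≠ 0 := by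
    intro x hx h0
    have h1 := h x hx
    obtain ⟨e1, e2, e3, -, -, -⟩ := h1
    have hsum : (Λ (1, x)).1.1 + (Λ (1, x)).1.2.1 + (Λ (1, x)).1.2.2 = 0 := h0
    have hsq : (Λ (1, x)).1.1 ^ 2 + (Λ (1, x)).1.2.1 ^ 2 + (Λ (1, x)).1.2.2 ^ 2 +
        2 * ‖(Λ (1, x)).2.1‖ ^ 2 + 2 * ‖(Λ (1, x)).2.2.1‖ ^ 2 + 2 * ‖(Λ (1, x)).2.2.2‖ ^ 2 = 0 := by
      rw [e1, e2, e3]
      nlinarith [hsum]
    have hl2 : (Λ (1, x)).1.1 ^ 2 = 0 := by
      nlinarith [sq_nonneg (Λ (1, x)).1.1, sq_nonneg (Λ (1, x)).1.2.1,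
        sq_nonneg (Λ (1, x)).1.2.2, sq_nonneg ‖(Λ (1, x)).2.1‖, sq_nonneg ‖(Λ (1, x)).2.2.1‖,
        sq_nonneg ‖(Λ (1, x)).2.2.2‖]
    have hr2 : (Λ (1, x)).1.2.1 ^ 2 = 0 := by
      nlinarith [sq_nonneg (Λ (1, x)).1.1, sq_nonneg (Λ (1, x)).1.2.1,
        sq_nonneg (Λ (1, x)).1.2.2, sq_nonneg ‖(Λ (1, x)).2.1‖, sq_nonneg ‖(Λ (1, x)).2.2.1‖,
        sq_nonneg ‖(Λ (1, x)).2.2.2‖]
    have hs2 : (Λ (1, x)).1.2.2 ^ 2 = 0 := by
      nlinarith [sq_nonneg (Λ (1, x)).1.1, sq_nonneg (Λ (1, x)).1.2.1,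
        sq_nonneg (Λ (1, x)).1.2.2, sq_nonneg ‖(Λ (1, x)).2.1‖, sq_nonneg ‖(Λ (1, x)).2.2.1‖,
        sq_nonneg ‖(Λ (1, x)).2.2.2‖]
    have hl : (Λ (1, x)).1.1 = 0 := by simpa using hl2
    have hr : (Λ (1, x)).1.2.1 = 0 := by simpa using hr2
    have hs : (Λ (1, x)).1.2.2 = 0 := by simpa using hs2
    have ha : (Λ (1, x)).2.1 = 0 := by rw [hl, zero_mul] at e1; simpa using e1
    have hb : (Λ (1, x)).2.2.1 = 0 := by rw [hl, zero_mul] at e2; simpa using e2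
    have ht : (Λ (1, x)).2.2.2 = 0 := by rw [hr, zero_mul] at e3; simpa using e3
    exact hne x (Prod.ext (Prod.ext hl (Prod.ext hr hs)) (Prod.ext ha (Prod.ext hb ht)))
  set V : Set (Model d) := {X | X ∈ A.cone ∧ mtr X = 1} with hV
  set W : Set (Model d) := {X | ∃ x ∈ S, ∃ c : ℝ, c ≠ 0 ∧ Λ (1, x) = c • X} with hW
  have hconn : IsConnected V := h_isConnected_stdCone A hd
  have hmc : Continuous fun x : E => mtr (Λ (1, x)) := by unfold mtr; fun_prop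
  -- the normalized map
  set F : E → Model d := fun x => (mtr (Λ (1, x)))⁻¹ • Λ (1, x) with hF
  have hFc : ContinuousOn F S := by
    refine ContinuousOn.smul (ContinuousOn.inv₀ hmc.continuousOn htr) ?_
    exact Continuous.continuousOn (by fun_prop)
  have hFK : IsClosed (F '' S) := (hS.compact.image_of_continuousOn hFc).isClosed
  have hWF : ∀ X ∈ V, X ∈ W ↔ X ∈ F '' S := by
    rintro X ⟨hX1, hX2⟩
    constructor
    · rintro ⟨x, hx, c, hc, hcx⟩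
      refine ⟨x, hx, ?_⟩
      have : mtr (Λ (1, x)) = c := by rw [hcx, mtr_smul, hX2, mul_one]
      simp only [hF, this]
      rw [hcx, smul_smul, inv_mul_cancel₀ hc, one_smul]
    · rintro ⟨x, hx, rfl⟩
      refine ⟨x, hx, mtr (Λ (1, x)), htr x hx, ?_⟩
      simp only [hF]
      rw [smul_smul, mul_inv_cancel₀ (htr x hx), one_smul]
  have : PreconnectedSpace V := Subtype.preconnectedSpace hconn.isPreconnected
  have hclopen : IsClopen {X : V | (X : Model d) ∈ W} := by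
    constructor
    · have : {X : V | (X : Model d) ∈ W} = Subtype.val ⁻¹' (F '' S) := by
        ext X; exact hWF X X.2
      rw [this]
      exact hFK.preimage continuous_subtype_val
    · rw [isOpen_iff_mem_nhds]
      rintro ⟨X, hXV⟩ hXW
      have hXW' : X ∈ W := hXW
      obtain ⟨x0, hx0, c0, hc0, hcx0⟩ := hXW'
      have key : ∀ᶠ Y in 𝓝[A.cone] (Λ (1, x0)), ∃ x ∈ S, ∃ c : ℝ, c ≠ 0 ∧ Λ (1, x) = c • Y := by
        by_cases hl : (Λ (1, x0)).1.1 = 0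
        · by_cases hr : (Λ (1, x0)).1.2.1 = 0
          · refine open_at hd A hS Λ h (s13 A) (fun X => s13_mem_iff A) hx0 ?_
            show (Λ (1, x0)).1.2.2 ≠ 0
            intro hs
            exact htr x0 hx0 (by rw [mtr, hl, hr, hs]; norm_num)
          · exact open_at hd A hS Λ h (s12 A) (fun X => s12_mem_iff A) hx0 hr
        · exact open_at hd A hS Λ h (ContinuousLinearEquiv.refl ℝ _) (fun X => Iff.rfl) hx0 hl
      have h2 : Tendsto (fun Y : Model d => c0 • Y) (𝓝[V] X) (𝓝[A.cone] (Λ (1, x0))) := by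
        rw [hcx0]
        refine tendsto_nhdsWithin_iff.2 ⟨?_, ?_⟩
        · exact ((continuous_const_smul c0).tendsto X).mono_left nhdsWithin_le_nhds
        · exact eventually_nhdsWithin_of_forall fun Y hY => smul_mem_cone A _ hY.1
      have h3 : ∀ᶠ Y in 𝓝[V] X, Y ∈ W := by
        filter_upwards [h2.eventually key] with Y hY
        obtain ⟨x, hx, c, hc, hcx⟩ := hY
        exact ⟨x, hx, c * c0, mul_ne_zero hc hc0, by rw [hcx, smul_smul]⟩
      exact (eventually_nhds_subtype_iff V ⟨X, hXV⟩ (fun Y => Y ∈ W)).2 h3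
  have hne' : {X : V | (X : Model d) ∈ W}.Nonempty := by
    obtain ⟨x, hx⟩ := hS.conn.nonempty
    have hFV : F x ∈ V := by
      refine ⟨smul_mem_cone A _ (h x hx), ?_⟩
      simp only [hF]
      rw [mtr_smul, inv_mul_cancel₀ (htr x hx)]
    exact ⟨⟨F x, hFV⟩, (hWF _ hFV).2 ⟨x, hx, rfl⟩⟩
  have huniv := hclopen.eq_univ hne'
  intro X hX hX1
  have : (⟨X, hX, hX1⟩ : V) ∈ {X : V | (X : Model d) ∈ W} := by rw [huniv]; trivial
  exact this

end H5'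

end Pool.Agent.TP
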