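import Pool.Agent.Lib_helper48.TP.H3
import Pool.Agent.Lib_helper48.TP.H4
import Pool.Agent.Lib_helper48.TP.C1

open Module Metric Set Filter Topology CategoryTheory
open scoped ContDiff

noncomputable section
namespace Pool.Agent.TP

section Core
variable {E : Type} [NormedAddCommGroup E] [InnerProductSpace ℝ E] [FiniteDimensional ℝ E]

/-- the open-closed argument: `S` lies in the cone in one linear system of coordinates -/
theorem core_near {d : ℕ} (hd : 1 ≤ d) (A : CA d) {S : Set E} (hS : TightSet d S)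
    (hnear : ∀ p ∈ S, Good S p → ∃ Λ : (ℝ × E) ≃L[ℝ] Model d, NearIn A S Λ p ∧
      Λ (1, p) = ((1, 0, 0), (0, 0, 0))) :
    ∃ Λ : (ℝ × E) ≃L[ℝ] Model d, ∀ x ∈ S, Λ (1, x) ∈ A.cone := by
  obtain ⟨p0, hp0, hg0⟩ := exists_good hS.compact hS.conn.nonempty
  obtain ⟨Λ, hΛ, -⟩ := hnear p0 hp0 hg0
  refine ⟨Λ, ?_⟩
  have : PreconnectedSpace S := Subtype.preconnectedSpace hS.conn.isPreconnected
  have hclopen : IsClopen {x : S | NearIn A S Λ (x : E)} := by
    constructor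
    · rw [← closure_subset_iff_isClosed]
      intro x hx
      have h1 : (x : E) ∈ closure {y ∈ S | NearIn A S Λ y} := by
        have h2 : (x : E) ∈ closure (Subtype.val '' {x : S | NearIn A S Λ (x : E)}) :=
          image_closure_subset_closure_image continuous_subtype_val ⟨x, hx, rfl⟩
        refine closure_mono ?_ h2
        rintro _ ⟨y, hy, rfl⟩
        exact ⟨y.2, hy⟩
      have h3 := good_of_closure hd A hS Λ h1
      obtain ⟨Λ', h4, h5⟩ := hnear x x.2 h3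
      exact near_of_closure hd A hS Λ Λ' h1 h4 h5
    · rw [isOpen_iff_mem_nhds]
      intro x hx
      have h1 : ∀ᶠ y in 𝓝[S] (x : E), NearIn A S Λ y := eventually_eventually_nhdsWithin.2 hx
      exact (eventually_nhds_subtype_iff S x (fun y => NearIn A S Λ y)).2 h1
  have huniv := hclopen.eq_univ ⟨⟨p0, hp0⟩, hΛ⟩
  intro x hx
  have h1 : (⟨x, hx⟩ : S) ∈ {x : S | NearIn A S Λ (x : E)} := by rw [huniv]; trivial
  have h2 : NearIn A S Λ x := h1
  exact h2.self_of_nhdsWithin hx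

theorem isProjImage_of_tightSet {d : ℕ} (hd : 1 ≤ d) (K : Type) [NonAssocRing K] [StarRing K]
    [Module ℝ K] [StarModule ℝ K] [SMulCommClass ℝ K K] [IsScalarTower ℝ K K] (A : CA d)
    (ι : K ≃ₗ[ℝ] Vd d) (hm : ∀ x y, ι (x * y) = A.m (ι x) (ι y))
    (hc : ∀ x, ι (star x) = A.c (ι x)) (hn : ∀ x, star x * x = (‖ι x‖ ^ 2) • (1 : K))
    {S : Set E} (hS : TightSet d S)
    (hnear : ∀ p ∈ S, Good S p → ∃ Λ : (ℝ × E) ≃L[ℝ] Model d, NearIn A S Λ p ∧
      Λ (1, p) = ((1, 0, 0), (0, 0, 0))) : IsProjImage K S := by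
  obtain ⟨Λ0, hΛ0⟩ := core_near hd A hS hnear
  have hsurj := surj_of_near hd A hS Λ0 hΛ0
  obtain ⟨Ψ, hΨ⟩ := exists_herm_coords hd K A ι hm hc hn
  have hne : ∀ x : E, Λ0 (1, x) ≠ 0 := by
    intro x h0
    have := Λ0.injective (h0.trans (map_zero Λ0).symm)
    simpa using congrArg Prod.fst this
  refine ⟨Λ0.toLinearEquiv.trans Ψ.symm, ?_, ?_⟩
  · intro X hX
    obtain ⟨h1, h2⟩ := (hΨ X).1 hX
    obtain ⟨x, hx, c, hc0, hcx⟩ := hsurj (Ψ X) h1 h2
    have h3 : (Λ0.toLinearEquiv.trans Ψ.symm).symm X = c⁻¹ • ((1 : ℝ), x) := by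
      apply (Λ0.toLinearEquiv.trans Ψ.symm).injective
      rw [LinearEquiv.apply_symm_apply, map_smul]
      show X = c⁻¹ • Ψ.symm (Λ0 (1, x))
      rw [hcx, map_smul, smul_smul, inv_mul_cancel₀ hc0, one_smul, LinearEquiv.symm_apply_apply]
    rw [h3]
    show c⁻¹ * 1 ≠ 0
    rw [mul_one]
    exact inv_ne_zero hc0
  · intro x
    constructor
    · intro hx
      have h1 := hΛ0 x hx
      have h2 := mtr_ne_zero A h1 (hne x)
      refine ⟨Ψ.symm ((mtr (Λ0 (1, x)))⁻¹ • Λ0 (1, x)), ?_, mtr (Λ0 (1, x)), h2, ?_⟩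
      · rw [hΨ, LinearEquiv.apply_symm_apply]
        exact ⟨smul_mem_cone A _ h1, by rw [mtr_smul, inv_mul_cancel₀ h2]⟩
      · show Ψ.symm (Λ0 (1, x)) = _
        rw [← map_smul, smul_smul, mul_inv_cancel₀ h2, one_smul]
    · rintro ⟨X, hX, c, hc0, hcx⟩
      obtain ⟨h1, h2⟩ := (hΨ X).1 hX
      obtain ⟨x', hx', c', hc0', hcx'⟩ := hsurj (Ψ X) h1 h2
      have h3 : Λ0 (1, x) = c • Ψ X := by
        have h4 : Ψ.symm (Λ0 (1, x)) = c • X := hcx
        rw [← map_smul, ← h4, LinearEquiv.apply_symm_apply]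
      have h4 : Ψ X = c'⁻¹ • Λ0 (1, x') := by
        rw [hcx', smul_smul, inv_mul_cancel₀ hc0', one_smul]
      rw [h4, smul_smul, ← map_smul] at h3
      have h5 := Λ0.injective h3
      have h6 : (1 : ℝ) = c * c'⁻¹ := by simpa using congrArg Prod.fst h5
      rw [← h6, one_smul] at h5
      have h7 : x = x' := congrArg Prod.snd h5
      rw [h7]; exact hx'

end Core

end Pool.Agent.TP
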