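import Pool.Agent.Lib_helper39.TP.Defs

open Module Metric Set Filter Topology
open scoped ContDiff

noncomputable section
namespace Pool.Agent.TP

section GlobalThy
variable {E : Type} [NormedAddCommGroup E] [InnerProductSpace ℝ E] [FiniteDimensional ℝ E]

/-- `S` lies in the cone `A.cone` near `p`, in the linear coordinates `Λ`. -/
def NearIn {d : ℕ} (A : CA d) (S : Set E) (Λ : (ℝ × E) ≃L[ℝ] Model d) (p : E) : Prop :=
  ∀ᶠ x in 𝓝[S] p, Λ (1, x) ∈ A.cone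

/-- `p` is a good point of `S` -/
def Good (S : Set E) (p : E) : Prop :=
  ∃ (ξ : E →L[ℝ] ℝ) (k : ℝ), 0 < k ∧ ∀ᶠ x in 𝓝[S] p, k * ‖x - p‖ ^ 2 ≤ ξ (x - p)

/-- (H1) a good point exists -/
theorem exists_good {S : Set E} (hS : IsCompact S) (hne : S.Nonempty) :
    ∃ p ∈ S, Good S p := by
  obtain ⟨p, hp, hmax⟩ := hS.exists_isMaxOn hne (continuous_norm.continuousOn (s := S))
  refine ⟨p, hp, -(2 : ℝ) • innerSL ℝ p, 1, one_pos, ?_⟩
  refine eventually_nhdsWithin_of_forall fun x hx => ?_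
  have h1 : ‖x‖ ≤ ‖p‖ := hmax hx
  have h2 : ‖x‖ ^ 2 ≤ ‖p‖ ^ 2 := pow_le_pow_left₀ (norm_nonneg _) h1 2
  have h3 : ‖x - p‖ ^ 2 = ‖x‖ ^ 2 - 2 * inner ℝ x p + ‖p‖ ^ 2 := norm_sub_sq_real x p
  have h4 : inner ℝ p (x - p) = inner ℝ x p - ‖p‖ ^ 2 := by
    rw [inner_sub_right, real_inner_self_eq_norm_sq, real_inner_comm]
  simp only [one_mul, smul_apply, innerSL_apply_apply, smul_eq_mul]
  rw [h3, h4]
  linarith

/-! facts on the cone -/

section Cone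
variable {d : ℕ} (A : CA d)

theorem CA.norm_sq_m (a b : Vd d) : ‖A.m a b‖ ^ 2 = ‖a‖ ^ 2 * ‖b‖ ^ 2 := by
  rw [A.norm_m, mul_pow]

theorem h_mem_cone_of_l {l r s : ℝ} {a b t : Vd d} (hl : l ≠ 0) (h1 : ‖a‖ ^ 2 = l * r)
    (h2 : ‖b‖ ^ 2 = l * s) (h3 : A.m (A.c a) b = l • t) :
    (((l, r, s), (a, b, t)) : Model d) ∈ A.cone := by
  have ht : ‖t‖ ^ 2 = r * s := by
    have := A.norm_sq_m (A.c a) b
    rw [h3, A.norm_c, norm_smul, mul_pow, Real.norm_eq_abs, sq_abs, h1, h2] at this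
    have hl2 : l ^ 2 ≠ 0 := pow_ne_zero 2 hl
    apply mul_left_cancel₀ hl2
    rw [this]; ring
  refine ⟨h1, h2, ht, h3, ?_, ?_⟩
  · show A.m a t = r • b
    have h4 : l • A.m a t = l • (r • b) := by
      rw [← map_smul, ← h3, A.m_left, h1, smul_smul]
    exact smul_right_injective _ hl h4
  · show A.m b (A.c t) = s • a
    have h4 : l • A.m b (A.c t) = l • (s • a) := by
      rw [← map_smul, ← map_smul, ← h3, A.c_m, A.c_c, A.m_left, h2, smul_smul]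
    exact smul_right_injective _ hl h4

theorem h_isClosed_cone : IsClosed A.cone := by
  have e : A.cone = {X : Model d | ‖X.2.1‖ ^ 2 = X.1.1 * X.1.2.1} ∩
      ({X | ‖X.2.2.1‖ ^ 2 = X.1.1 * X.1.2.2} ∩ ({X | ‖X.2.2.2‖ ^ 2 = X.1.2.1 * X.1.2.2} ∩
      ({X | A.m (A.c X.2.1) X.2.2.1 = X.1.1 • X.2.2.2} ∩
      ({X | A.m X.2.1 X.2.2.2 = X.1.2.1 • X.2.2.1} ∩
      {X | A.m X.2.2.1 (A.c X.2.2.2) = X.1.2.2 • X.2.1})))) := rfl
  rw [e]
  refine IsClosed.inter (isClosed_eq (by fun_prop) (by fun_prop)) ?_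
  refine IsClosed.inter (isClosed_eq (by fun_prop) (by fun_prop)) ?_
  refine IsClosed.inter (isClosed_eq (by fun_prop) (by fun_prop)) ?_
  refine IsClosed.inter (isClosed_eq (by fun_prop) (by fun_prop)) ?_
  refine IsClosed.inter (isClosed_eq (by fun_prop) (by fun_prop)) ?_
  exact isClosed_eq (by fun_prop) (by fun_prop)

/-- scaling -/
theorem smul_mem_cone {X : Model d} (c : ℝ) (hX : X ∈ A.cone) : c • X ∈ A.cone := by
  obtain ⟨h1, h2, h3, h4, h5, h6⟩ := hX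
  refine ⟨?_, ?_, ?_, ?_, ?_, ?_⟩
  · show ‖c • X.2.1‖ ^ 2 = (c * X.1.1) * (c * X.1.2.1)
    rw [norm_smul, mul_pow, h1, Real.norm_eq_abs, sq_abs]; ring
  · show ‖c • X.2.2.1‖ ^ 2 = (c * X.1.1) * (c * X.1.2.2)
    rw [norm_smul, mul_pow, h2, Real.norm_eq_abs, sq_abs]; ring
  · show ‖c • X.2.2.2‖ ^ 2 = (c * X.1.2.1) * (c * X.1.2.2)
    rw [norm_smul, mul_pow, h3, Real.norm_eq_abs, sq_abs]; ring
  · show A.m (A.c (c • X.2.1)) (c • X.2.2.1) = (c * X.1.1) • (c • X.2.2.2)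
    simp only [map_smul, smul_apply, h4, smul_smul]
    congr 1; ring
  · show A.m (c • X.2.1) (c • X.2.2.2) = (c * X.1.2.1) • (c • X.2.2.1)
    simp only [map_smul, smul_apply, h5, smul_smul]
    congr 1; ring
  · show A.m (c • X.2.2.1) (A.c (c • X.2.2.2)) = (c * X.1.2.2) • (c • X.2.1)
    simp only [map_smul, smul_apply, h6, smul_smul]
    congr 1; ring

theorem smul_mem_cone_iff {X : Model d} {c : ℝ} (hc : c ≠ 0) : c • X ∈ A.cone ↔ X ∈ A.cone := by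
  refine ⟨fun h => ?_, smul_mem_cone A c⟩
  have := smul_mem_cone A c⁻¹ h
  rwa [smul_smul, inv_mul_cancel₀ hc, one_smul] at this

/-- the affine parametrization of the cone with `l = 1` -/
def NN (w : Vd d × Vd d) : Model d :=
  ((1, ‖w.1‖ ^ 2, ‖w.2‖ ^ 2), (w.1, w.2, A.m (A.c w.1) w.2))

theorem NN_mem (w : Vd d × Vd d) : NN A w ∈ A.cone :=
  h_mem_cone_of_l A one_ne_zero (by simp) (by simp) (by simp)

/-- on the cone with `l ≠ 0` -/
theorem eq_smul_NN {X : Model d} (hX : X ∈ A.cone) (hl : X.1.1 ≠ 0) :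
    X = X.1.1 • NN A (X.1.1⁻¹ • X.2.1, X.1.1⁻¹ • X.2.2.1) := by
  obtain ⟨⟨l, r, s⟩, ⟨a, b, t⟩⟩ := X
  obtain ⟨h1, h2, h3, h4, h5, h6⟩ := hX
  simp only at hl h1 h2 h3 h4 h5 h6 ⊢
  have e1 : l * 1 = l := mul_one l
  have e2 : l * ‖l⁻¹ • a‖ ^ 2 = r := by
    rw [norm_smul, mul_pow, h1, Real.norm_eq_abs, sq_abs]; field_simp
  have e3 : l * ‖l⁻¹ • b‖ ^ 2 = s := by
    rw [norm_smul, mul_pow, h2, Real.norm_eq_abs, sq_abs]; field_simp
  have e4 : l • (l⁻¹ • a) = a := by rw [smul_smul, mul_inv_cancel₀ hl, one_smul]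
  have e5 : l • (l⁻¹ • b) = b := by rw [smul_smul, mul_inv_cancel₀ hl, one_smul]
  have e6 : l • A.m (A.c (l⁻¹ • a)) (l⁻¹ • b) = t := by
    simp only [map_smul, smul_apply, h4, smul_smul]
    rw [show l * (l⁻¹ * (l⁻¹ * l)) = 1 by field_simp, one_smul]
  simp only [NN, Prod.smul_mk, smul_eq_mul, e1, e2, e3, e4, e5, e6]

/-- the coordinate `l` -/
def L1 (d : ℕ) : Model d →L[ℝ] ℝ :=
  (ContinuousLinearMap.fst ℝ ℝ (ℝ × ℝ)).comp (ContinuousLinearMap.fst ℝ _ _)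

/-- the coordinates `(a, b)` -/
def L2 (d : ℕ) : Model d →L[ℝ] Vd d × Vd d :=
  ((ContinuousLinearMap.fst ℝ (Vd d) (Vd d × Vd d)).comp (ContinuousLinearMap.snd ℝ _ _)).prod
    (((ContinuousLinearMap.fst ℝ (Vd d) (Vd d)).comp
      (ContinuousLinearMap.snd ℝ (Vd d) (Vd d × Vd d))).comp (ContinuousLinearMap.snd ℝ _ _))

theorem L1_apply (X : Model d) : L1 d X = X.1.1 := rfl
theorem L2_apply (X : Model d) : L2 d X = (X.2.1, X.2.2.1) := rfl

theorem eq_smul_NN' {X : Model d} (hX : X ∈ A.cone) (hl : L1 d X ≠ 0) :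
    X = L1 d X • NN A ((L1 d X)⁻¹ • L2 d X) :=
  eq_smul_NN A hX hl

theorem contDiff_NN {n : WithTop ℕ∞} : ContDiff ℝ n (NN A) := by
  have h1 : ContDiff ℝ n fun w : Vd d × Vd d => ‖w.1‖ ^ 2 := contDiff_fst.norm_sq ℝ
  have h2 : ContDiff ℝ n fun w : Vd d × Vd d => ‖w.2‖ ^ 2 := contDiff_snd.norm_sq ℝ
  have h3 : ContDiff ℝ n fun w : Vd d × Vd d => A.m (A.c w.1) w.2 :=
    ((A.m.contDiff.comp (A.c.contDiff.comp contDiff_fst)).clm_apply contDiff_snd)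
  exact ContDiff.prodMk (contDiff_const.prodMk (h1.prodMk h2))
    (contDiff_fst.prodMk (contDiff_snd.prodMk h3))

end Cone

variable {d : ℕ}

/-- parametrization from a chart -/
def GraphChart.par {S : Set E} {p : E} (G : GraphChart d S p) (z : Vd (2 * d)) : E :=
  p + G.Θ (z, G.g z)

theorem GraphChart.par_zero {S : Set E} {p : E} (G : GraphChart d S p) : G.par 0 = p := by
  have : ((0 : Vd (2 * d)), (0 : Vd (d + 2))) = 0 := rfl
  simp [GraphChart.par, G.g0, this]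

theorem GraphChart.contDiff_par {S : Set E} {p : E} (G : GraphChart d S p) :
    ContDiff ℝ ∞ G.par :=
  contDiff_const.add (G.Θ.contDiff.comp (contDiff_id.prodMk G.smooth))

theorem GraphChart.par_tendsto {S : Set E} {p : E} (G : GraphChart d S p) :
    Tendsto G.par (𝓝 0) (𝓝[S] p) := by
  refine tendsto_nhdsWithin_iff.2 ⟨?_, ?_⟩
  · have := G.contDiff_par.continuous.tendsto 0
    rwa [G.par_zero] at this
  · filter_upwards [ball_mem_nhds (0 : Vd (2 * d)) G.hR] with z hz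
    exact G.mem z hz

theorem GraphChart.hasStrictFDerivAt_par {S : Set E} {p : E} (G : GraphChart d S p) :
    HasStrictFDerivAt G.par ((G.Θ : (Vd (2 * d) × Vd (d + 2)) →L[ℝ] E).comp
      ((ContinuousLinearMap.id ℝ (Vd (2 * d))).prod 0)) 0 := by
  have hg : HasStrictFDerivAt G.g (0 : Vd (2 * d) →L[ℝ] Vd (d + 2)) 0 := by
    have := (G.smooth.contDiffAt (x := 0)).hasStrictFDerivAt (by simp)
    rwa [G.dg0] at this
  have h1 : HasStrictFDerivAt (fun z => (z, G.g z))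
      ((ContinuousLinearMap.id ℝ (Vd (2 * d))).prod 0) 0 :=
    (hasStrictFDerivAt_id (0 : Vd (2 * d))).prodMk hg
  exact ((G.Θ : (Vd (2 * d) × Vd (d + 2)) →L[ℝ] E).hasStrictFDerivAt.comp 0 h1).const_add p

theorem model_finrank : finrank ℝ (Vd d × Vd d) = finrank ℝ (Vd (2 * d)) := by
  rw [Module.finrank_prod, finrank_euclideanSpace_fin, finrank_euclideanSpace_fin]; ring

/-- (H0) chart lemma (inverse function theorem): near `p` the set `S` covers the cone. -/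
theorem chart_open (hd : 1 ≤ d) (A : CA d) {S : Set E} (hS : TightSet d S)
    (Λ : (ℝ × E) ≃L[ℝ] Model d) {p : E} (hp : p ∈ S) (hn : NearIn A S Λ p)
    (hl : (Λ (1, p)).1.1 ≠ 0) (U : Set E) (hU : U ∈ 𝓝 p) :
    ∀ᶠ X in 𝓝[A.cone] (Λ (1, p)), ∃ x ∈ S ∩ U, ∃ c : ℝ, c ≠ 0 ∧ Λ (1, x) = c • X := by
  obtain ⟨G⟩ := hS.chart p hp
  set P' : Vd (2 * d) →L[ℝ] E := (G.Θ : (Vd (2 * d) × Vd (d + 2)) →L[ℝ] E).comp
      ((ContinuousLinearMap.id ℝ (Vd (2 * d))).prod 0) with hP'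
  set Z : Vd (2 * d) → Model d := fun z => Λ (1, G.par z) with hZ
  set Z' : Vd (2 * d) →L[ℝ] Model d := (Λ : (ℝ × E) →L[ℝ] Model d).comp
      ((0 : Vd (2 * d) →L[ℝ] ℝ).prod P') with hZ'
  have hZd : HasStrictFDerivAt Z Z' 0 := by
    have h1 : HasStrictFDerivAt (fun z => ((1 : ℝ), G.par z))
        ((0 : Vd (2 * d) →L[ℝ] ℝ).prod P') 0 :=
      (hasStrictFDerivAt_const (1 : ℝ) 0).prodMk G.hasStrictFDerivAt_par
    exact (Λ : (ℝ × E) →L[ℝ] Model d).hasStrictFDerivAt.comp 0 h1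
  have hZ0 : Z 0 = Λ (1, p) := by simp only [hZ, G.par_zero]
  have hl0 : L1 d (Z 0) ≠ 0 := by rw [hZ0]; exact hl
  -- eventually in the cone
  have hcone : ∀ᶠ z in 𝓝 (0 : Vd (2 * d)), Z z ∈ A.cone := G.par_tendsto.eventually hn
  have hlz : ∀ᶠ z in 𝓝 (0 : Vd (2 * d)), L1 d (Z z) ≠ 0 :=
    ((L1 d).continuous.continuousAt.comp hZd.continuousAt).eventually_ne hl0
  have hUz : ∀ᶠ z in 𝓝 (0 : Vd (2 * d)), G.par z ∈ U := by
    have := G.contDiff_par.continuous.tendsto 0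
    rw [G.par_zero] at this
    exact this.eventually hU
  have hSz : ∀ᶠ z in 𝓝 (0 : Vd (2 * d)), G.par z ∈ S := by
    filter_upwards [ball_mem_nhds (0 : Vd (2 * d)) G.hR] with z hz
    exact G.mem z hz
  -- the map ψ
  set ψ : Vd (2 * d) → Vd d × Vd d := fun z => (L1 d (Z z))⁻¹ • L2 d (Z z) with hψ
  have hψd : ∃ ψ' : Vd (2 * d) →L[ℝ] Vd d × Vd d, HasStrictFDerivAt ψ ψ' 0 := by
    have h1 : HasStrictFDerivAt (fun z => L1 d (Z z)) ((L1 d).comp Z') 0 :=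
      (L1 d).hasStrictFDerivAt.comp 0 hZd
    have h2 : HasStrictFDerivAt (fun z => L2 d (Z z)) ((L2 d).comp Z') 0 :=
      (L2 d).hasStrictFDerivAt.comp 0 hZd
    have h3 := (hasStrictDerivAt_inv hl0).comp_hasStrictFDerivAt 0 h1
    exact ⟨_, h3.smul h2⟩
  obtain ⟨ψ', hψ'⟩ := hψd
  have hinj : Function.Injective ψ' := by
    rw [injective_iff_map_eq_zero]
    intro u hu
    have hNN : HasFDerivAt (NN A) (fderiv ℝ (NN A) (ψ 0)) (ψ 0) :=
      ((contDiff_NN A (n := 1)).differentiable (by simp) (ψ 0)).hasFDerivAt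
    have h1 : HasFDerivAt (fun z => L1 d (Z z)) ((L1 d).comp Z') 0 :=
      ((L1 d).hasStrictFDerivAt.comp 0 hZd).hasFDerivAt
    have h2 : HasFDerivAt (fun z => NN A (ψ z)) ((fderiv ℝ (NN A) (ψ 0)).comp ψ') 0 :=
      hNN.comp 0 hψ'.hasFDerivAt
    have h3 := h1.smul h2
    have h4 : (fun z => L1 d (Z z) • NN A (ψ z)) =ᶠ[𝓝 0] Z := by
      filter_upwards [hcone, hlz] with z h5 h6
      exact (eq_smul_NN' A h5 h6).symm
    have h5 : HasFDerivAt Z _ 0 := h3.congr_of_eventuallyEq h4.symm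
    have h6 := h5.unique hZd.hasFDerivAt
    have h7 := congrArg (fun T => T u) h6
    have h8 : L1 d (Z' u) • NN A (ψ 0) = Z' u := by
      have : (L1 d (Z 0) • (fderiv ℝ (NN A) (ψ 0)).comp ψ') u = 0 := by
        simp [hu]
      simpa [hu] using h7
    have h9 : NN A (ψ 0) = (L1 d (Z 0))⁻¹ • Z 0 := by
      have h10 : Z 0 = L1 d (Z 0) • NN A (ψ 0) :=
        eq_smul_NN' A (hcone.self_of_nhds) hl0
      exact ((inv_smul_eq_iff₀ hl0).2 h10).symm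
    rw [h9, smul_smul] at h8
    -- apply Λ⁻¹
    have h10 : Z' u = Λ (0, P' u) := rfl
    rw [h10, hZ0, ← map_smul] at h8
    have h11 := Λ.injective h8
    have h12 : L1 d (Λ (0, P' u)) * (L1 d (Λ (1, p)))⁻¹ = 0 := by
      have := congrArg Prod.fst h11
      simpa using this
    rw [h12, zero_smul] at h11
    have h13 : P' u = 0 := by
      have := congrArg Prod.snd h11
      simpa using this.symm
    have h14 : (u, (0 : Vd (d + 2))) = 0 := G.Θ.injective (by rw [map_zero]; exact h13)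
    exact congrArg Prod.fst h14
  have hsurj : ψ'.range = ⊤ := by
    rw [LinearMap.range_eq_top]
    exact (LinearMap.injective_iff_surjective_of_finrank_eq_finrank model_finrank.symm).1 hinj
  have hmap := hψ'.map_nhds_eq_of_surj hsurj
  have hW : {z | Z z ∈ A.cone ∧ L1 d (Z z) ≠ 0 ∧ G.par z ∈ U ∧ G.par z ∈ S} ∈
      𝓝 (0 : Vd (2 * d)) := by
    filter_upwards [hcone, hlz, hUz, hSz] with z h1 h2 h3 h4
    exact ⟨h1, h2, h3, h4⟩
  have hW' := image_mem_map (m := ψ) hW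
  rw [hmap] at hW'
  have hπ : ContinuousAt (fun X : Model d => (L1 d X)⁻¹ • L2 d X) (Λ (1, p)) :=
    ((L1 d).continuous.continuousAt.inv₀ hl).smul (L2 d).continuous.continuousAt
  have h1 : ∀ᶠ X in 𝓝 (Λ (1, p)), (L1 d X)⁻¹ • L2 d X ∈
      ψ '' {z | Z z ∈ A.cone ∧ L1 d (Z z) ≠ 0 ∧ G.par z ∈ U ∧ G.par z ∈ S} := by
    refine hπ.eventually ?_
    have : (fun X : Model d => (L1 d X)⁻¹ • L2 d X) (Λ (1, p)) = ψ 0 := by
      rw [hψ]; simp only [hZ0]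
    rw [this]
    exact hW'
  have h2 : ∀ᶠ X in 𝓝 (Λ (1, p)), L1 d X ≠ 0 :=
    (L1 d).continuous.continuousAt.eventually_ne hl
  filter_upwards [mem_nhdsWithin_of_mem_nhds h1, mem_nhdsWithin_of_mem_nhds h2,
    self_mem_nhdsWithin] with X hX1 hX2 hX3
  obtain ⟨z, ⟨hz1, hz2, hz3, hz4⟩, hz5⟩ := hX1
  refine ⟨G.par z, ⟨hz4, hz3⟩, L1 d (Z z) * (L1 d X)⁻¹,
    mul_ne_zero hz2 (inv_ne_zero hX2), ?_⟩
  have e1 : X = L1 d X • NN A (ψ z) := by rw [hz5]; exact eq_smul_NN' A hX3 hX2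
  have e2 : Z z = L1 d (Z z) • NN A (ψ z) := eq_smul_NN' A hz1 hz2
  have e3 : NN A (ψ z) = (L1 d X)⁻¹ • X := by
    exact ((inv_smul_eq_iff₀ hX2).2 e1).symm
  show Z z = _
  conv_lhs => rw [e2, e3]
  rw [smul_smul]

end GlobalThy

end Pool.Agent.TP
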