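import Pool.Agent.Lib_helper48.TP.H0

open Module Metric Set Filter Topology
open scoped ContDiff

noncomputable section
namespace Pool.Agent.TP

section Second
variable {T : Type} [NormedAddCommGroup T] [NormedSpace ℝ T]

theorem second_lower (H : T → ℝ) (hH : ContDiff ℝ 2 H) (z0 : T) (k : ℝ) (hk0 : 0 ≤ k)
    (h0 : H z0 = 0) (hk : ∀ᶠ z in 𝓝 z0, k * ‖z - z0‖ ^ 2 ≤ H z) :
    fderiv ℝ H z0 = 0 ∧ ∀ u, 2 * k * ‖u‖ ^ 2 ≤ D2 H z0 u u := by
  refine ⟨?_, ?_⟩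
  · refine IsLocalMin.fderiv_eq_zero ?_
    filter_upwards [hk] with z hz
    rw [h0]
    exact (by positivity : 0 ≤ k * ‖z - z0‖ ^ 2).trans hz
  · intro u
    have hf1 : fderiv ℝ H z0 = 0 := by
      refine IsLocalMin.fderiv_eq_zero ?_
      filter_upwards [hk] with z hz
      rw [h0]
      exact (by positivity : 0 ≤ k * ‖z - z0‖ ^ 2).trans hz
    have hd : ∀ x ∈ interior (univ : Set T), HasFDerivAt H (fderiv ℝ H x) x :=
      fun x _ => (hH.differentiable (by simp) x).hasFDerivAt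
    have hd2 : HasFDerivWithinAt (fderiv ℝ H) (D2 H z0) (interior (univ : Set T)) z0 := by
      have h1 : ContDiff ℝ 1 (fderiv ℝ H) := hH.fderiv_right (by norm_num)
      exact ((h1.differentiable (by simp) z0).hasFDerivAt).hasFDerivWithinAt
    have key := convex_univ.taylor_approx_two_segment hd (mem_univ z0) hd2 (v := 0) (w := u)
      (by simp) (by simp)
    refine le_of_forall_pos_le_add fun ε hε => ?_
    have h1 := (Asymptotics.isLittleO_iff.1 key) (half_pos hε)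
    have h2 : Tendsto (fun h : ℝ => z0 + h • u) (𝓝[>] 0) (𝓝 z0) := by
      have : Tendsto (fun h : ℝ => z0 + h • u) (𝓝 0) (𝓝 (z0 + (0 : ℝ) • u)) := by
        apply Continuous.tendsto; fun_prop
      rw [zero_smul, add_zero] at this
      exact this.mono_left nhdsWithin_le_nhds
    obtain ⟨h, ⟨h3, h4⟩, h5⟩ := ((h1.and (h2.eventually hk)).and self_mem_nhdsWithin).exists
    have h5' : (0 : ℝ) < h := h5
    simp only [smul_zero, add_zero, h0, hf1, map_zero, smul_eq_mul, mul_zero, sub_zero,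
      zero_apply, Real.norm_eq_abs, abs_pow] at h3
    simp only [add_sub_cancel_left, norm_smul, mul_pow, Real.norm_eq_abs, sq_abs] at h4
    rw [sq_abs] at h3
    have h6 := (abs_le.1 h3).2
    have h7 : h ^ 2 * (2 * k * ‖u‖ ^ 2) ≤ h ^ 2 * (D2 H z0 u u + ε) := by nlinarith
    exact le_of_mul_le_mul_left h7 (by positivity)

theorem lower_of_second (H : T → ℝ) (hH : ContDiff ℝ 2 H) (z0 : T) (k : ℝ) (hk : 0 < k)
    (h0 : H z0 = 0) (h1 : fderiv ℝ H z0 = 0) (h2 : ∀ u, 2 * k * ‖u‖ ^ 2 ≤ D2 H z0 u u) :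
    ∀ᶠ z in 𝓝 z0, (k / 2) * ‖z - z0‖ ^ 2 ≤ H z := by
  have hd2 : HasFDerivAt (fderiv ℝ H) (D2 H z0) z0 := by
    have h1 : ContDiff ℝ 1 (fderiv ℝ H) := hH.fderiv_right (by norm_num)
    exact (h1.differentiable (by simp) z0).hasFDerivAt
  have h3 := (Asymptotics.isLittleO_iff.1 hd2.isLittleO) hk
  obtain ⟨δ, hδ, hball⟩ := Metric.eventually_nhds_iff_ball.1 h3
  filter_upwards [ball_mem_nhds z0 hδ] with z hz
  set u := z - z0 with hu
  have hun : ‖u‖ < δ := by rw [hu, ← dist_eq_norm]; exact hz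
  set φ : ℝ → ℝ := fun t => H (z0 + t • u) - k / 2 * t ^ 2 * ‖u‖ ^ 2 with hφ
  have hφd : ∀ t : ℝ, HasDerivAt φ (fderiv ℝ H (z0 + t • u) u - k * t * ‖u‖ ^ 2) t := by
    intro t
    have e1 : HasDerivAt (fun t : ℝ => z0 + t • u) u t := by
      simpa using ((hasDerivAt_id t).smul_const u).const_add z0
    have e2 : HasDerivAt (fun t : ℝ => H (z0 + t • u)) (fderiv ℝ H (z0 + t • u) u) t :=
      (hH.differentiable (by simp) _).hasFDerivAt.comp_hasDerivAt t e1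
    have e3 : HasDerivAt (fun t : ℝ => k / 2 * t ^ 2 * ‖u‖ ^ 2) (k * t * ‖u‖ ^ 2) t := by
      have e4 := (((hasDerivAt_id t).pow 2).const_mul (k / 2)).mul_const (‖u‖ ^ 2)
      refine e4.congr_deriv ?_
      show k / 2 * (((2 : ℕ) : ℝ) * t ^ (2 - 1) * 1) * ‖u‖ ^ 2 = k * t * ‖u‖ ^ 2
      push_cast
      ring
    exact e2.sub e3
  have hmono : MonotoneOn φ (Icc 0 1) := by
    refine monotoneOn_of_deriv_nonneg (convex_Icc 0 1)
      (fun t _ => (hφd t).continuousAt.continuousWithinAt)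
      (fun t _ => (hφd t).differentiableAt.differentiableWithinAt) ?_
    intro t ht
    rw [interior_Icc] at ht
    rw [(hφd t).deriv]
    have e1 : z0 + t • u ∈ ball z0 δ := by
      rw [mem_ball, dist_eq_norm, add_sub_cancel_left, norm_smul, Real.norm_eq_abs,
        abs_of_pos ht.1]
      nlinarith [ht.1, ht.2, norm_nonneg u]
    have e2 := hball _ e1
    rw [h1, sub_zero, add_sub_cancel_left, norm_smul, Real.norm_eq_abs, abs_of_pos ht.1] at e2
    have e3 : |(fderiv ℝ H (z0 + t • u) - D2 H z0 (t • u)) u| ≤ k * (t * ‖u‖) * ‖u‖ := by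
      have := (fderiv ℝ H (z0 + t • u) - D2 H z0 (t • u)).le_opNorm u
      rw [Real.norm_eq_abs] at this
      exact this.trans (mul_le_mul_of_nonneg_right e2 (norm_nonneg _))
    have e4 := (abs_le.1 e3).1
    simp only [sub_apply, map_smul, smul_apply, smul_eq_mul] at e4
    have e5 := h2 u
    have e6 : t * (2 * k * ‖u‖ ^ 2) ≤ t * D2 H z0 u u := mul_le_mul_of_nonneg_left e5 ht.1.le
    nlinarith
  have h4 := hmono (left_mem_Icc.2 zero_le_one) (right_mem_Icc.2 zero_le_one) zero_le_one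
  simp only [hφ, zero_smul, add_zero, h0, one_smul, hu, add_sub_cancel] at h4
  norm_num at h4
  linarith

end Second

section MIP
variable {d : ℕ}

/-- coordinate functionals of the model -/
def pr (d : ℕ) : Model d →L[ℝ] ℝ :=
  (ContinuousLinearMap.fst ℝ ℝ ℝ).comp
    ((ContinuousLinearMap.snd ℝ ℝ (ℝ × ℝ)).comp (ContinuousLinearMap.fst ℝ _ _))
def ps (d : ℕ) : Model d →L[ℝ] ℝ :=
  (ContinuousLinearMap.snd ℝ ℝ ℝ).comp
    ((ContinuousLinearMap.snd ℝ ℝ (ℝ × ℝ)).comp (ContinuousLinearMap.fst ℝ _ _))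
def pa (d : ℕ) : Model d →L[ℝ] Vd d :=
  (ContinuousLinearMap.fst ℝ (Vd d) (Vd d × Vd d)).comp (ContinuousLinearMap.snd ℝ _ _)
def pb (d : ℕ) : Model d →L[ℝ] Vd d :=
  (ContinuousLinearMap.fst ℝ (Vd d) (Vd d)).comp
    ((ContinuousLinearMap.snd ℝ (Vd d) (Vd d × Vd d)).comp (ContinuousLinearMap.snd ℝ _ _))
def pt (d : ℕ) : Model d →L[ℝ] Vd d :=
  (ContinuousLinearMap.snd ℝ (Vd d) (Vd d)).comp
    ((ContinuousLinearMap.snd ℝ (Vd d) (Vd d × Vd d)).comp (ContinuousLinearMap.snd ℝ _ _))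

/-- the trace as a functional -/
def mtrL (d : ℕ) : Model d →L[ℝ] ℝ := L1 d + pr d + ps d

theorem mtrL_apply (X : Model d) : mtrL d X = mtr X := rfl

/-- the inner product of the model -/
def mipL (X : Model d) : Model d →L[ℝ] ℝ :=
  X.1.1 • L1 d + X.1.2.1 • pr d + X.1.2.2 • ps d + (2 : ℝ) • (innerSL ℝ X.2.1).comp (pa d) +
    (2 : ℝ) • (innerSL ℝ X.2.2.1).comp (pb d) + (2 : ℝ) • (innerSL ℝ X.2.2.2).comp (pt d)

theorem mipL_apply (X Y : Model d) : mipL X Y = X.1.1 * Y.1.1 + X.1.2.1 * Y.1.2.1 +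
    X.1.2.2 * Y.1.2.2 + 2 * inner ℝ X.2.1 Y.2.1 + 2 * inner ℝ X.2.2.1 Y.2.2.1 +
    2 * inner ℝ X.2.2.2 Y.2.2.2 := rfl

theorem mipL_self (X : Model d) : mipL X X = X.1.1 ^ 2 + X.1.2.1 ^ 2 + X.1.2.2 ^ 2 +
    2 * ‖X.2.1‖ ^ 2 + 2 * ‖X.2.2.1‖ ^ 2 + 2 * ‖X.2.2.2‖ ^ 2 := by
  rw [mipL_apply, real_inner_self_eq_norm_sq, real_inner_self_eq_norm_sq,
    real_inner_self_eq_norm_sq]
  ring

theorem mipL_comm (X Y : Model d) : mipL X Y = mipL Y X := by
  rw [mipL_apply, mipL_apply, real_inner_comm Y.2.1, real_inner_comm Y.2.2.1,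
    real_inner_comm Y.2.2.2]
  ring

theorem mipL_sub_self (X Y : Model d) :
    mipL (X - Y) (X - Y) = mipL X X - 2 * mipL X Y + mipL Y Y := by
  have h1 : mipL (X - Y) (X - Y) = mipL (X - Y) X - mipL (X - Y) Y := map_sub _ _ _
  rw [h1, mipL_comm (X - Y) X, mipL_comm (X - Y) Y, map_sub, map_sub, mipL_comm Y X]
  ring

theorem mipL_smul_left (c : ℝ) (X Y : Model d) : mipL (c • X) Y = c * mipL X Y := by
  rw [mipL_comm, map_smul, smul_eq_mul, mipL_comm]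

theorem mipL_smul_self (c : ℝ) (X : Model d) : mipL (c • X) (c • X) = c ^ 2 * mipL X X := by
  rw [mipL_smul_left, map_smul, smul_eq_mul]; ring

theorem norm_sq_le_mipL (X : Model d) : ‖X‖ ^ 2 ≤ mipL X X := by
  obtain ⟨⟨l, r, s⟩, ⟨a, b, t⟩⟩ := X
  rw [mipL_self]
  simp only [Prod.norm_mk, Real.norm_eq_abs]
  have hp : 0 ≤ max (max |l| (max |r| |s|)) (max ‖a‖ (max ‖b‖ ‖t‖)) :=
    (abs_nonneg l).trans ((le_max_left _ _).trans (le_max_left _ _))
  have h1 := sq_nonneg l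
  have h2 := sq_nonneg r
  have h3 := sq_nonneg s
  have h4 := sq_nonneg ‖a‖
  have h5 := sq_nonneg ‖b‖
  have h6 := sq_nonneg ‖t‖
  have key : max (max |l| (max |r| |s|)) (max ‖a‖ (max ‖b‖ ‖t‖)) ≤
      Real.sqrt (l ^ 2 + r ^ 2 + s ^ 2 + 2 * ‖a‖ ^ 2 + 2 * ‖b‖ ^ 2 + 2 * ‖t‖ ^ 2) := by
    refine max_le (max_le ?_ (max_le ?_ ?_)) (max_le ?_ (max_le ?_ ?_)) <;>
    refine Real.le_sqrt_of_sq_le ?_
    · rw [sq_abs]; linarith
    · rw [sq_abs]; linarith
    · rw [sq_abs]; linarith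
    · linarith
    · linarith
    · linarith
  calc _ ≤ (Real.sqrt (l ^ 2 + r ^ 2 + s ^ 2 + 2 * ‖a‖ ^ 2 + 2 * ‖b‖ ^ 2 + 2 * ‖t‖ ^ 2)) ^ 2 :=
        pow_le_pow_left₀ hp key 2
    _ = _ := Real.sq_sqrt (by positivity)

variable (A : CA d)

theorem mipL_of_mem_cone {X : Model d} (hX : X ∈ A.cone) : mipL X X = mtr X ^ 2 := by
  obtain ⟨h1, h2, h3, -, -, -⟩ := hX
  rw [mipL_self, h1, h2, h3, mtr]
  ring

theorem mtr_ne_zero {X : Model d} (hX : X ∈ A.cone) (h0 : X ≠ 0) : mtr X ≠ 0 := by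
  intro h
  have h1 := mipL_of_mem_cone A hX
  have h2 := norm_sq_le_mipL X
  rw [h1, h] at h2
  have h3 : ‖X‖ ^ 2 = 0 := le_antisymm (by simpa using h2) (sq_nonneg _)
  exact h0 (norm_eq_zero.1 (pow_eq_zero_iff (two_ne_zero) |>.1 h3))

/-- the fundamental inequality -/
theorem fund_ineq {X0 Z : Model d} (h0 : X0 ∈ A.cone) (hZ : Z ∈ A.cone) (ht0 : mtr X0 = 1)
    (hc : mtr Z ≠ 0) :
    (mtrL d - mipL X0) Z = mtr Z / 2 * mipL ((mtr Z)⁻¹ • Z - X0) ((mtr Z)⁻¹ • Z - X0) := by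
  have h1 := mipL_of_mem_cone A h0
  have h2 := mipL_of_mem_cone A hZ
  rw [mipL_sub_self, mipL_smul_self, mipL_smul_left, h1, h2, ht0, sub_apply, mtrL_apply,
    mipL_comm Z X0]
  field_simp
  ring

end MIP

section Comp
variable {T F : Type} [NormedAddCommGroup T] [NormedSpace ℝ T] [NormedAddCommGroup F]
  [NormedSpace ℝ F]

theorem fderiv_lcomp (l : F →L[ℝ] ℝ) (Z : T → F) (hZ : ContDiff ℝ 2 Z) (z : T) :
    fderiv ℝ (fun z => l (Z z)) z = l.comp (fderiv ℝ Z z) :=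
  (l.hasFDerivAt.comp z (hZ.differentiable (by simp) z).hasFDerivAt).fderiv

theorem D2_lcomp (l : F →L[ℝ] ℝ) (Z : T → F) (hZ : ContDiff ℝ 2 Z) (z u v : T) :
    D2 (fun z => l (Z z)) z u v = l (D2 Z z u v) := by
  have h1 : fderiv ℝ (fun z => l (Z z)) = fun z => l.comp (fderiv ℝ Z z) :=
    funext fun z => fderiv_lcomp l Z hZ z
  have h2 : HasFDerivAt (fderiv ℝ Z) (D2 Z z) z := by
    have h1 : ContDiff ℝ 1 (fderiv ℝ Z) := hZ.fderiv_right (by norm_num)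
    exact (h1.differentiable (by simp) z).hasFDerivAt
  have h3 : HasFDerivAt (fun z => l.comp (fderiv ℝ Z z))
      ((ContinuousLinearMap.compL ℝ T F ℝ l).comp (D2 Z z)) z :=
    (ContinuousLinearMap.compL ℝ T F ℝ l).hasFDerivAt.comp z h2
  rw [D2, h1, h3.fderiv]
  rfl

end Comp

section Good
variable {E : Type} [NormedAddCommGroup E] [InnerProductSpace ℝ E] [FiniteDimensional ℝ E]
variable {d : ℕ} (A : CA d)

theorem quad_est (Λ : (ℝ × E) ≃L[ℝ] Model d) (p : E) (hc : 0 < mtr (Λ (1, p))) :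
    ∃ κ > 0, ∃ N ∈ 𝓝 p, ∀ x0 ∈ N, ∀ x ∈ N, Λ (1, x0) ∈ A.cone → Λ (1, x) ∈ A.cone →
      κ * ‖x - x0‖ ^ 2 ≤ (mtrL d - mipL ((mtr (Λ (1, x0)))⁻¹ • Λ (1, x0))) (Λ (1, x)) := by
  set c := mtr (Λ (1, p)) with hcdef
  set M := ‖(Λ.symm : Model d →L[ℝ] (ℝ × E))‖ + 1 with hM
  have hMpos : 0 < M := by positivity
  set B := 2 + ‖p‖ with hB
  have hBpos : 0 < B := by positivity
  have hcont : Continuous fun x : E => mtr (Λ (1, x)) := by
    have : Continuous fun x : E => mtrL d (Λ (1, x)) := by fun_prop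
    exact this
  refine ⟨1 / (4 * c * (M ^ 2 * B ^ 2)), by positivity,
    {x | mtr (Λ (1, x)) ∈ Ioo (c / 2) (2 * c)} ∩ ball p 1, ?_, ?_⟩
  · refine inter_mem ?_ (ball_mem_nhds p one_pos)
    exact hcont.continuousAt.preimage_mem_nhds (Ioo_mem_nhds (by linarith) (by linarith))
  · rintro x0 ⟨⟨h01, h02⟩, h03⟩ x ⟨⟨hx1, hx2⟩, hx3⟩ hx0c hxc
    set c0 := mtr (Λ (1, x0)) with hc0
    set cx := mtr (Λ (1, x)) with hcx
    have hc0p : 0 < c0 := by linarith
    have hcxp : 0 < cx := by linarith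
    have hX0 : c0⁻¹ • Λ (1, x0) ∈ A.cone := smul_mem_cone A _ hx0c
    have hX0t : mtr (c0⁻¹ • Λ (1, x0)) = 1 := by
      rw [← mtrL_apply, map_smul, mtrL_apply, smul_eq_mul, ← hc0, inv_mul_cancel₀ hc0p.ne']
    rw [fund_ineq A hX0 hxc hX0t hcxp.ne', ← hcx]
    set D : Model d := cx⁻¹ • Λ (1, x) - c0⁻¹ • Λ (1, x0) with hD
    have hD1 : Λ.symm D = (cx⁻¹ - c0⁻¹, cx⁻¹ • x - c0⁻¹ • x0) := by
      rw [hD, map_sub, map_smul, map_smul, Λ.symm_apply_apply, Λ.symm_apply_apply]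
      simp [Prod.smul_mk, Prod.mk_sub_mk]
    have hD2 : ‖Λ.symm D‖ ≤ M * ‖D‖ := by
      refine ((Λ.symm : Model d →L[ℝ] (ℝ × E)).le_opNorm D).trans ?_
      exact mul_le_mul_of_nonneg_right (by rw [hM]; linarith) (norm_nonneg _)
    have h1 : |cx⁻¹ - c0⁻¹| ≤ M * ‖D‖ := by
      refine le_trans ?_ hD2
      rw [hD1]; exact le_max_left _ _
    have h2 : ‖cx⁻¹ • x - c0⁻¹ • x0‖ ≤ M * ‖D‖ := by
      refine le_trans ?_ hD2
      rw [hD1]; exact le_max_right _ _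
    have h3 : ‖x0‖ ≤ 1 + ‖p‖ := by
      have : ‖x0 - p‖ < 1 := by rw [← dist_eq_norm]; exact h03
      calc ‖x0‖ = ‖(x0 - p) + p‖ := by rw [sub_add_cancel]
        _ ≤ ‖x0 - p‖ + ‖p‖ := norm_add_le _ _
        _ ≤ 1 + ‖p‖ := by linarith
    have h4 : cx⁻¹ * ‖x - x0‖ ≤ M * B * ‖D‖ := by
      have e1 : cx⁻¹ • (x - x0) = (cx⁻¹ • x - c0⁻¹ • x0) - (cx⁻¹ - c0⁻¹) • x0 := by
        rw [smul_sub, sub_smul]; abel
      calc cx⁻¹ * ‖x - x0‖ = ‖cx⁻¹ • (x - x0)‖ := by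
            rw [norm_smul, Real.norm_eq_abs, abs_of_pos (inv_pos.2 hcxp)]
        _ ≤ ‖cx⁻¹ • x - c0⁻¹ • x0‖ + ‖(cx⁻¹ - c0⁻¹) • x0‖ := by rw [e1]; exact norm_sub_le _ _
        _ ≤ M * ‖D‖ + (M * ‖D‖) * (1 + ‖p‖) := by
            rw [norm_smul, Real.norm_eq_abs]
            exact add_le_add h2 (mul_le_mul h1 h3 (norm_nonneg _) (by positivity))
        _ = M * B * ‖D‖ := by rw [hB]; ring
    have h5 : ‖x - x0‖ ≤ cx * (M * B * ‖D‖) := by
      rwa [inv_mul_le_iff₀ hcxp] at h4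
    have h6 : ‖x - x0‖ ^ 2 ≤ cx ^ 2 * (M ^ 2 * B ^ 2) * mipL D D := by
      calc ‖x - x0‖ ^ 2 ≤ (cx * (M * B * ‖D‖)) ^ 2 := pow_le_pow_left₀ (norm_nonneg _) h5 2
        _ = cx ^ 2 * (M ^ 2 * B ^ 2) * ‖D‖ ^ 2 := by ring
        _ ≤ _ := mul_le_mul_of_nonneg_left (norm_sq_le_mipL D) (by positivity)
    have hDn : 0 ≤ mipL D D := (sq_nonneg _).trans (norm_sq_le_mipL D)
    calc 1 / (4 * c * (M ^ 2 * B ^ 2)) * ‖x - x0‖ ^ 2
        ≤ 1 / (4 * c * (M ^ 2 * B ^ 2)) * (cx ^ 2 * (M ^ 2 * B ^ 2) * mipL D D) :=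
          mul_le_mul_of_nonneg_left h6 (by positivity)
      _ = cx ^ 2 / (4 * c) * mipL D D := by field_simp
      _ ≤ cx / 2 * mipL D D := by
          refine mul_le_mul_of_nonneg_right ?_ hDn
          rw [div_le_div_iff₀ (by positivity) two_pos]
          nlinarith

theorem good_of_closure_pos {S : Set E} (hS : TightSet d S)
    (Λ : (ℝ × E) ≃L[ℝ] Model d) {p : E} (hp : p ∈ closure {x ∈ S | NearIn A S Λ x})
    (hpS : p ∈ S) (hpc : Λ (1, p) ∈ A.cone) (hc : 0 < mtr (Λ (1, p))) : Good S p := by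
  obtain ⟨G⟩ := hS.chart p hpS
  obtain ⟨κ, hκ, N, hN, hquad⟩ := quad_est A Λ p hc
  set Z : Vd (2 * d) → Model d := fun z => Λ (1, G.par z) with hZ
  have hZs : ContDiff ℝ ∞ Z :=
    (Λ : (ℝ × E) →L[ℝ] Model d).contDiff.comp (contDiff_const.prodMk G.contDiff_par)
  have hZ2 : ContDiff ℝ 2 Z := hZs.of_le ENat.LEInfty.out
  have hZ0 : Z 0 = Λ (1, p) := by simp only [hZ, G.par_zero]
  set X : Vd (2 * d) → Model d := fun z => (mtr (Z z))⁻¹ • Z z with hX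
  set L : Vd (2 * d) → (Model d →L[ℝ] ℝ) := fun z => mtrL d - mipL (X z) with hL
  have hmZ : Continuous fun z => mtr (Z z) := by
    have : Continuous fun z => mtrL d (Z z) := (mtrL d).continuous.comp hZs.continuous
    exact this
  have hm0 : mtr (Z 0) ≠ 0 := by rw [hZ0]; exact hc.ne'
  have hXc : ContinuousAt X 0 := (hmZ.continuousAt.inv₀ hm0).smul hZs.continuous.continuousAt
  have hLc : ∀ Y : Vd (2 * d) → Model d, Continuous Y → ContinuousAt (fun z => L z (Y z)) 0 := by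
    intro Y hY
    have h1 : Continuous fun q : Model d × Model d => (mtrL d - mipL q.1) q.2 := by
      have : (fun q : Model d × Model d => (mtrL d - mipL q.1) q.2) =
          fun q => mtrL d q.2 - mipL q.1 q.2 := rfl
      rw [this]
      simp only [mipL_apply]
      fun_prop
    have h2 : ContinuousAt (fun z => (X z, Y z)) 0 := hXc.prodMk hY.continuousAt
    exact ContinuousAt.comp (f := fun z => (X z, Y z))
      (g := fun q : Model d × Model d => (mtrL d - mipL q.1) q.2) h1.continuousAt h2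
  -- constants
  set M := ‖(G.Θ.symm : E →L[ℝ] (Vd (2 * d) × Vd (d + 2)))‖ + 1 with hM
  have hMpos : 0 < M := by positivity
  have hpar : ∀ z z0, ‖z - z0‖ ≤ M * ‖G.par z - G.par z0‖ := by
    intro z z0
    have e0 : G.par z - G.par z0 = G.Θ (z - z0, G.g z - G.g z0) := by
      have h := map_sub G.Θ (z, G.g z) (z0, G.g z0)
      rw [Prod.mk_sub_mk] at h
      rw [h, GraphChart.par, GraphChart.par]; abel
    have e1 : G.Θ.symm (G.par z - G.par z0) = (z - z0, G.g z - G.g z0) := by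
      rw [e0]; exact G.Θ.symm_apply_apply _
    have e2 : ‖G.Θ.symm (G.par z - G.par z0)‖ ≤ M * ‖G.par z - G.par z0‖ := by
      refine ((G.Θ.symm : E →L[ℝ] (Vd (2 * d) × Vd (d + 2))).le_opNorm _).trans ?_
      exact mul_le_mul_of_nonneg_right (by rw [hM]; linarith) (norm_nonneg _)
    refine le_trans ?_ e2
    rw [e1]
    exact le_max_left _ _
  set k := κ / M ^ 2 with hk
  have hkpos : 0 < k := by positivity
  -- frequently
  have hfreq : ∃ᶠ z0 in 𝓝 (0 : Vd (2 * d)), NearIn A S Λ (G.par z0) := by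
    rw [Metric.nhds_basis_ball.frequently_iff]
    intro r hr
    obtain ⟨δ, hδ, hδ'⟩ := G.nhds r hr
    obtain ⟨x, ⟨hxS, hxN⟩, hxd⟩ := Metric.mem_closure_iff.1 hp δ hδ
    obtain ⟨z, hz, hxz⟩ := hδ' x hxS (by rwa [dist_comm])
    exact ⟨z, hz, by rw [GraphChart.par, ← hxz]; exact hxN⟩
  have hparc : Continuous G.par := G.contDiff_par.continuous
  have hev : ∀ᶠ z0 in 𝓝 (0 : Vd (2 * d)), G.par z0 ∈ interior N ∧ z0 ∈ ball 0 G.R ∧
      0 < mtr (Z z0) := by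
    refine Filter.Eventually.and ?_ (Filter.Eventually.and (ball_mem_nhds _ G.hR) ?_)
    · have := hparc.tendsto 0
      rw [G.par_zero] at this
      exact this.eventually (isOpen_interior.mem_nhds (mem_interior_iff_mem_nhds.2 hN))
    · have h0 : 0 < mtr (Z 0) := by rw [hZ0]; exact hc
      exact hmZ.continuousAt.eventually (lt_mem_nhds h0)
  have hmain : ∀ z0, NearIn A S Λ (G.par z0) → (G.par z0 ∈ interior N ∧ z0 ∈ ball 0 G.R ∧
      0 < mtr (Z z0)) → (∀ u, L z0 (fderiv ℝ Z z0 u) = 0) ∧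
        ∀ u, 2 * k * ‖u‖ ^ 2 ≤ L z0 (D2 Z z0 u u) := by
    rintro z0 hn ⟨h1, h2, h3⟩
    have hSz0 : G.par z0 ∈ S := G.mem z0 h2
    have hcz0 : Z z0 ∈ A.cone := hn.self_of_nhdsWithin hSz0
    have hH0 : L z0 (Z z0) = 0 := by
      simp only [hL, hX, sub_apply, mtrL_apply, mipL_smul_left, mipL_of_mem_cone A hcz0]
      field_simp
      ring
    have hHC : ContDiff ℝ 2 fun z => L z0 (Z z) := (L z0).contDiff.comp hZ2
    have hlow : ∀ᶠ z in 𝓝 z0, k * ‖z - z0‖ ^ 2 ≤ L z0 (Z z) := by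
      have e1 : Tendsto G.par (𝓝 z0) (𝓝[S] (G.par z0)) := by
        refine tendsto_nhdsWithin_iff.2 ⟨hparc.tendsto z0, ?_⟩
        filter_upwards [isOpen_ball.mem_nhds h2] with z hz
        exact G.mem z hz
      have e2 := (hparc.tendsto z0).eventually (isOpen_interior.mem_nhds h1)
      filter_upwards [e1.eventually hn, e2] with z hz1 hz2
      have e3 := hquad (G.par z0) (interior_subset h1) (G.par z) (interior_subset hz2) hcz0 hz1
      refine le_trans ?_ e3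
      have e4 := hpar z z0
      have e5 : ‖z - z0‖ ^ 2 ≤ M ^ 2 * ‖G.par z - G.par z0‖ ^ 2 := by
        rw [← mul_pow]; exact pow_le_pow_left₀ (norm_nonneg _) e4 2
      calc k * ‖z - z0‖ ^ 2 ≤ k * (M ^ 2 * ‖G.par z - G.par z0‖ ^ 2) :=
            mul_le_mul_of_nonneg_left e5 hkpos.le
        _ = κ * ‖G.par z - G.par z0‖ ^ 2 := by rw [hk]; field_simp
    obtain ⟨h4, h5⟩ := second_lower (fun z => L z0 (Z z)) hHC z0 k hkpos.le hH0 hlow
    refine ⟨fun u => ?_, fun u => ?_⟩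
    · rw [fderiv_lcomp (L z0) Z hZ2] at h4
      exact congrArg (fun T => T u) h4
    · have := h5 u
      rwa [D2_lcomp (L z0) Z hZ2] at this
  -- pass to the limit
  have hder : Continuous (fderiv ℝ Z) := hZs.continuous_fderiv (by simp)
  have hder2 : Continuous (D2 Z) := by
    have h1 : ContDiff ℝ 1 (fderiv ℝ Z) := hZ2.fderiv_right (by norm_num)
    exact h1.continuous_fderiv (by simp)
  have hlim1 : ∀ u, L 0 (fderiv ℝ Z 0 u) = 0 := by
    intro u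
    have h1 : ContinuousAt (fun z => L z (fderiv ℝ Z z u)) 0 := hLc _ (by fun_prop)
    have h2 : ∃ᶠ z in 𝓝 (0 : Vd (2 * d)), L z (fderiv ℝ Z z u) ∈ ({0} : Set ℝ) :=
      (hfreq.and_eventually hev).mono fun z hz => (hmain z hz.1 hz.2).1 u
    exact isClosed_singleton.mem_of_frequently_of_tendsto h2 h1
  have hlim2 : ∀ u, 2 * k * ‖u‖ ^ 2 ≤ L 0 (D2 Z 0 u u) := by
    intro u
    have h1 : ContinuousAt (fun z => L z (D2 Z z u u)) 0 := hLc _ (by fun_prop)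
    have h2 : ∃ᶠ z in 𝓝 (0 : Vd (2 * d)), L z (D2 Z z u u) ∈ Ici (2 * k * ‖u‖ ^ 2) :=
      (hfreq.and_eventually hev).mono fun z hz => (hmain z hz.1 hz.2).2 u
    exact isClosed_Ici.mem_of_frequently_of_tendsto h2 h1
  have hlim0 : L 0 (Z 0) = 0 := by
    have hcz0 : Z 0 ∈ A.cone := by rw [hZ0]; exact hpc
    simp only [hL, hX, sub_apply, mtrL_apply, mipL_smul_left, mipL_of_mem_cone A hcz0]
    field_simp
    ring
  have hfin := lower_of_second (fun z => L 0 (Z z)) ((L 0).contDiff.comp hZ2) 0 k hkpos hlim0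
    (by rw [fderiv_lcomp (L 0) Z hZ2]; ext u; exact hlim1 u)
    (fun u => by rw [D2_lcomp (L 0) Z hZ2]; exact hlim2 u)
  -- conclusion
  obtain ⟨C, hC, hCb⟩ := (G.hasStrictFDerivAt_par.hasFDerivAt.isBigO_sub).exists_pos
  rw [Asymptotics.isBigOWith_iff] at hCb
  obtain ⟨r, hr, hball⟩ := Metric.eventually_nhds_iff_ball.1 (hfin.and hCb)
  obtain ⟨δ, hδ, hδ'⟩ := G.nhds r hr
  refine ⟨((L 0).comp (Λ : (ℝ × E) →L[ℝ] Model d)).comp (ContinuousLinearMap.inr ℝ ℝ E),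
    k / 2 / C ^ 2, by positivity, ?_⟩
  rw [eventually_nhdsWithin_iff]
  filter_upwards [ball_mem_nhds p hδ] with x hx hxS
  obtain ⟨z, hz, hxz⟩ := hδ' x hxS hx
  obtain ⟨h1, h2⟩ := hball z hz
  have hxz' : G.par z = x := hxz.symm
  rw [G.par_zero, hxz', sub_zero] at h2
  rw [sub_zero] at h1
  have h3 : ((L 0).comp (Λ : (ℝ × E) →L[ℝ] Model d)).comp (ContinuousLinearMap.inr ℝ ℝ E)
      (x - p) = L 0 (Z z) := by
    have e1 : ((0 : ℝ), x - p) = (1, x) - (1, p) := by simp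
    show L 0 (Λ ((0 : ℝ), x - p)) = L 0 (Λ (1, G.par z))
    rw [e1, map_sub, map_sub, ← hZ0, hlim0, hxz', sub_zero]
  rw [h3]
  refine le_trans ?_ h1
  have h4 : ‖x - p‖ ^ 2 ≤ C ^ 2 * ‖z‖ ^ 2 := by
    rw [← mul_pow]; exact pow_le_pow_left₀ (norm_nonneg _) h2 2
  calc k / 2 / C ^ 2 * ‖x - p‖ ^ 2 ≤ k / 2 / C ^ 2 * (C ^ 2 * ‖z‖ ^ 2) :=
        mul_le_mul_of_nonneg_left h4 (by positivity)
    _ = k / 2 * ‖z‖ ^ 2 := by field_simp

/-- (H3) limits of points where `S` is in the cone are good -/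
theorem good_of_closure (hd : 1 ≤ d) (A : CA d) {S : Set E} (hS : TightSet d S)
    (Λ : (ℝ × E) ≃L[ℝ] Model d) {p : E} (hp : p ∈ closure {x ∈ S | NearIn A S Λ x}) :
    Good S p := by
  have hpS : p ∈ S := by
    have := closure_mono (fun x (hx : x ∈ {x ∈ S | NearIn A S Λ x}) => hx.1) hp
    rwa [hS.compact.isClosed.closure_eq] at this
  have hpc : Λ (1, p) ∈ A.cone := by
    have h1 : {x ∈ S | NearIn A S Λ x} ⊆ {x | Λ (1, x) ∈ A.cone} :=
      fun x hx => hx.2.self_of_nhdsWithin hx.1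
    have h2 : IsClosed {x : E | Λ (1, x) ∈ A.cone} :=
      (h_isClosed_cone A).preimage (by fun_prop)
    exact (closure_minimal h1 h2) hp
  have hne : Λ (1, p) ≠ 0 := by
    intro h
    have := Λ.injective (h.trans (map_zero Λ).symm)
    simpa using congrArg Prod.fst this
  rcases lt_or_gt_of_ne (mtr_ne_zero A hpc hne) with hc | hc
  · have hneg : ∀ x : E, (Λ.trans (ContinuousLinearEquiv.neg ℝ)) (1, x) = (-1 : ℝ) • Λ (1, x) := by
      intro x; simp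
    have hiff : ∀ x : E, (Λ.trans (ContinuousLinearEquiv.neg ℝ)) (1, x) ∈ A.cone ↔
        Λ (1, x) ∈ A.cone := by
      intro x; rw [hneg, smul_mem_cone_iff A (by norm_num)]
    refine good_of_closure_pos A hS (Λ.trans (ContinuousLinearEquiv.neg ℝ)) ?_ hpS
      ((hiff p).2 hpc) ?_
    · have : {x ∈ S | NearIn A S (Λ.trans (ContinuousLinearEquiv.neg ℝ)) x} =
          {x ∈ S | NearIn A S Λ x} := by
        ext x
        simp only [NearIn, hiff]
      rw [this]; exact hp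
    · rw [hneg, ← mtrL_apply, map_smul, mtrL_apply, smul_eq_mul]
      linarith
  · exact good_of_closure_pos A hS Λ hp hpS hpc hc

end Good

end Pool.Agent.TP
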